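import Pool.Agent.N20.DI.Stm2
import Pool.Agent.R674.KB.Blk
import Pool.Agent.R674.Ce.Sub

/-!
# Project DI (helper20), part BLK: the characters of the stabilisers induce blocks

By helper286.
-/

set_option autoImplicit false

open scoped Classical

noncomputable section

namespace Pool.Agent.N286.DI

open Pool.Agent.Y63.NV
open Pool.Agent.Y63.KR
open Pool.Agent.Y63.AWC (IsIrreducibleCharacter)
open Pool.Agent.R674.Tw (Fixes GCh NG NE NEbar ng_le IndB invSum)
open Pool.Agent.N20.DI

theorem BLK : S_BLK := by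
  intro p _ F _ _ _ red E _ _ G _ σ hσ hσG χ hχ
  obtain ⟨σ', hσ'⟩ : ∃ σ' : Set (Subgroup G),
      σ' = (fun P : Subgroup E => P.subgroupOf G) '' σ := ⟨_, rfl⟩
  have h3 : ∀ P ∈ σ, (P.subgroupOf G).map G.subtype = P := fun P hP => by
    rw [Subgroup.subgroupOf_map_subtype, inf_eq_left.mpr (hσG P hP)]
  have hle : ∀ P Q : Subgroup G, P.map G.subtype ≤ Q.map G.subtype ↔ P ≤ Q := fun P Q =>
    Subgroup.map_le_map_iff_of_injective G.subtype_injective
  have hch : IsPChain p σ' := by
    rw [hσ']
    refine ⟨?_, ?_, ?_⟩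
    · rintro _ ⟨P, hP, rfl⟩ _ ⟨Q, hQ, rfl⟩ _
      rcases hσ.chain.total hP hQ with h | h
      · left
        change P.subgroupOf G ≤ Q.subgroupOf G
        rw [← hle, h3 P hP, h3 Q hQ]
        exact h
      · right
        change Q.subgroupOf G ≤ P.subgroupOf G
        rw [← hle, h3 P hP, h3 Q hQ]
        exact h
    · rintro _ ⟨P, hP, rfl⟩
      exact (hσ.isPGroup P hP).comap_subtype
    · rintro _ ⟨P, hP, rfl⟩ h
      apply hσ.ne_bot P hP
      rw [← h3 P hP]
      change (P.subgroupOf G).map G.subtype = ⊥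
      have h' : P.subgroupOf G = ⊥ := h
      rw [h', Subgroup.map_bot]
  have himg : (fun P : Subgroup G => P.map G.subtype) '' σ' = σ := by
    rw [hσ', ← Set.image_comp]
    ext P
    constructor
    · rintro ⟨Q, hQ, rfl⟩
      change (Q.subgroupOf G).map G.subtype ∈ σ
      rw [h3 Q hQ]
      exact hQ
    · intro hP
      exact ⟨P, hP, h3 P hP⟩
  have hr : (Subgroup.inclusion (ng_le G σ)).range = chainStabilizer σ' := by
    apply Subgroup.map_injective G.subtype_injective
    have h4 := Pool.Agent.R674.Ce.stab_map G σ'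
    rw [himg] at h4
    rw [← h4, MonoidHom.map_range]
    have h5 : G.subtype.comp (Subgroup.inclusion (ng_le G σ)) = (NG G σ).subtype := rfl
    rw [h5, Subgroup.range_subtype]
    rfl
  exact Pool.Agent.R674.KB.kblk_aux red σ'.ncard G σ' hch rfl (NG G σ)
    (Subgroup.inclusion (ng_le G σ)) (Subgroup.inclusion_injective _) hr χ hχ

end Pool.Agent.N286.DI
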