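import Pool.Agent.N20.EN.Stm
import Pool.Agent.Y705.NV.Schur
import Pool.Agent.Y914.NV.Irr

/-!
# Project EN, leaf FINO: the orbits for a separating element
-/

set_option autoImplicit false

open scoped Classical BigOperators

noncomputable section

namespace Pool.Agent.N286.ENFINO

open Pool.Agent.Y63.NV Pool.Agent.Y63.KR Pool.Agent.N20.EN

theorem schur_ : S_SCHUR := Pool.Agent.Y705.NV.schur Pool.Agent.Y914.NV.irr

theorem trm_iff {F : Type} [Field F] [IsAlgClosed F] {K : Type} [Group K] [Finite K]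
    {G M : Subgroup K} {B : (G → F) → F} {z : K → F} (hz : InZ G z)
    (hB1 : B (fun x => z x) = 1)
    (hsep : ∀ B' : (G → F) → F, IsBlock B' → B' (fun x => z x) = 1 →
      ∀ f : G → F, IsClassFun f → B' f = B f) (φ : G → F) :
    (IsIrrTrace φ ∧ IsInvUnder M φ ∧ ∀ x : G, ∑ᶠ g : G, z g * φ (g * x) = 1 * φ x) ↔
      (IsIrrTrace φ ∧ IsInvUnder M φ ∧
        ∀ f : G → F, IsClassFun f → ∀ x : G, ∑ᶠ g : G, f g * φ (g * x) = B f * φ x) := by
  have hcl : IsClassFun (fun x : G => z x) := fun g x => hz.conj g x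
  constructor
  · rintro ⟨h1, h2, h3⟩
    refine ⟨h1, h2, ?_⟩
    obtain ⟨⟨x₀, hx₀⟩, B', hB', hact⟩ := schur_ F G φ h1
    have h4 : B' (fun x => z x) = 1 := by
      have h5 := hact (fun x : G => z x) hcl x₀
      rw [h3 x₀] at h5
      exact (mul_right_cancel₀ hx₀ h5).symm
    intro f hf x
    rw [hact f hf x, hsep B' hB' h4 f hf]
  · rintro ⟨h1, h2, h3⟩
    refine ⟨h1, h2, fun x => ?_⟩
    have h4 := h3 (fun x : G => z x) hcl x
    rw [hB1] at h4
    exact h4

theorem orbL_eq {F : Type} [Field F] [IsAlgClosed F] {K : Type} [Group K] [Finite K]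
    {G M : Subgroup K} {B : (G → F) → F} {z : K → F} (hz : InZ G z)
    (hB1 : B (fun x => z x) = 1)
    (hsep : ∀ B' : (G → F) → F, IsBlock B' → B' (fun x => z x) = 1 →
      ∀ f : G → F, IsClassFun f → B' f = B f) :
    OrbL G M ⊤ z 1 = orbI M G B := by
  unfold OrbL orbI
  refine Nat.card_congr (Quot.congr (Equiv.subtypeEquivRight fun φ => trm_iff hz hB1 hsep φ) ?_)
  intro a b
  constructor
  · rintro ⟨h, _, hh⟩
    exact ⟨h, hh⟩
  · rintro ⟨h, hh⟩
    exact ⟨h, Subgroup.mem_top h, hh⟩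

theorem FINO (h1 : S_CNTO) (h2 : S_SEPW) : S_FINO := by
  intro p _ F _ _ _ red K _ _ G M _ _ hGM B hB z hz hB1 hsep
  constructor
  · unfold LsK
    rw [inf_top_eq, inf_top_eq, if_pos (sup_eq_right.2 hGM), Subgroup.card_top,
      orbL_eq hz hB1 hsep]
  · rw [h1 p F red K G M z hz 1]
    have h3 : ∀ s : (Σ Q : Subgroup K, (↥(M ⊓ Subgroup.normalizer (Q : Set K)) → ℂ)),
        (IsPGroup p s.1 ∧ G ⊔ s.1 = M ∧
          IsWt p (s.1.subgroupOf (M ⊓ Subgroup.normalizer (s.1 : Set K))) s.2 ∧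
          centralValue red s.2 (fun x => z x) = 1) ↔
        (IsPGroup p s.1 ∧ G ⊔ s.1 = M ∧
          IsWt p (s.1.subgroupOf (M ⊓ Subgroup.normalizer (s.1 : Set K))) s.2 ∧
          ∀ w : K → F, InZM M G w →
            centralValue red s.2 (fun x => w x) = B (fun x : G => w x)) := by
      intro s
      constructor
      · rintro ⟨a, b, c, d⟩
        exact ⟨a, b, c, (h2 p F red K G M hGM B hB z hz hB1 hsep s.1 a
          (le_sup_right.trans (le_of_eq b)) s.2 c).1 d⟩
      · rintro ⟨a, b, c, d⟩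
        exact ⟨a, b, c, (h2 p F red K G M hGM B hB z hz hB1 hsep s.1 a
          (le_sup_right.trans (le_of_eq b)) s.2 c).2 d⟩
    congr 2
    unfold orbN
    refine Nat.card_congr (Quot.congr (Equiv.subtypeEquivRight h3) ?_)
    intro a b
    exact Iff.rfl

end Pool.Agent.N286.ENFINO
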