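import Pool.Agent.N795.SO.Stm
import Pool.Agent.Y998.ST.Stir
import Pool.Agent.W805.LR.Cons

/-!
# Project SO (helper795): Kolmogorov's equation for the law of stirring, right multiplication

By helper286.
-/

set_option autoImplicit false

namespace Pool.Agent.N795.SO

open Finset Equiv Filter Topology
open Pool.Agent.TH268.PD (law)
open Pool.Agent.N795.ST (mn)
open Pool.Agent.W805.LR (ringSum stirMass)

namespace N286kol

variable {V : Type} [Fintype V] [DecidableEq V]

theorem ring_succ (J : V → V → ℝ) (m : ℕ) (g : Perm V) :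
    ringSum J (m + 1) g = ∑ x, ∑ y, J x y / 2 * ringSum J m (swap x y * g) := rfl

/-- the recursion from the right -/
theorem ring_right (J : V → V → ℝ) (m : ℕ) : ∀ g : Perm V,
    ringSum J (m + 1) g = ∑ x, ∑ y, J x y / 2 * ringSum J m (g * swap x y) := by
  induction m with
  | zero =>
    intro g
    rw [ring_succ]
    refine Finset.sum_congr rfl fun x _ => Finset.sum_congr rfl fun y _ => ?_
    have h : (swap x y * g = 1) ↔ (g * swap x y = 1) := by
      constructor
      · intro h
        rw [← inv_eq_of_mul_eq_one_right h, swap_inv, swap_mul_self]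
      · intro h
        rw [← inv_eq_of_mul_eq_one_left h, swap_inv, swap_mul_self]
    unfold ringSum
    simp only [h]
  | succ m ih =>
    intro g
    have e : ∀ x y, J x y / 2 * ringSum J (m + 1) (g * swap x y) =
        ∑ u, ∑ v, J x y / 2 * (J u v / 2 * ringSum J m (swap u v * (g * swap x y))) := by
      intro x y
      rw [ring_succ, Finset.mul_sum]
      refine Finset.sum_congr rfl fun u _ => ?_
      rw [Finset.mul_sum]
    have e' : ∑ x, ∑ y, J x y / 2 * ringSum J (m + 1) (g * swap x y) =
        ∑ x, ∑ y, ∑ u, ∑ v, J x y / 2 * (J u v / 2 * ringSum J m (swap u v * (g * swap x y))) :=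
      Finset.sum_congr rfl fun x _ => Finset.sum_congr rfl fun y _ => e x y
    have c1 : ∑ x, ∑ y, ∑ u, ∑ v, J x y / 2 * (J u v / 2 * ringSum J m (swap x y * g * swap u v)) =
        ∑ z : V × V, ∑ w : V × V, J z.1 z.2 / 2 *
          (J w.1 w.2 / 2 * ringSum J m (swap z.1 z.2 * g * swap w.1 w.2)) := by
      rw [Fintype.sum_prod_type]
      refine Finset.sum_congr rfl fun x _ => Finset.sum_congr rfl fun y _ => ?_
      rw [Fintype.sum_prod_type]
    have c2 : ∑ x, ∑ y, ∑ u, ∑ v, J x y / 2 *
        (J u v / 2 * ringSum J m (swap u v * (g * swap x y))) =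
        ∑ z : V × V, ∑ w : V × V, J z.1 z.2 / 2 *
          (J w.1 w.2 / 2 * ringSum J m (swap w.1 w.2 * (g * swap z.1 z.2))) := by
      rw [Fintype.sum_prod_type]
      refine Finset.sum_congr rfl fun x _ => Finset.sum_congr rfl fun y _ => ?_
      rw [Fintype.sum_prod_type]
    have c3 : ∑ x, ∑ y, J x y / 2 * ∑ u, ∑ v, J u v / 2 * ringSum J m (swap x y * g * swap u v) =
        ∑ x, ∑ y, ∑ u, ∑ v, J x y / 2 *
          (J u v / 2 * ringSum J m (swap x y * g * swap u v)) := by
      refine Finset.sum_congr rfl fun x _ => Finset.sum_congr rfl fun y _ => ?_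
      rw [Finset.mul_sum]
      refine Finset.sum_congr rfl fun u _ => ?_
      rw [Finset.mul_sum]
    have c4 : ∑ x, ∑ y, J x y / 2 * ringSum J (m + 1) (swap x y * g) =
        ∑ x, ∑ y, ∑ u, ∑ v, J x y / 2 *
          (J u v / 2 * ringSum J m (swap x y * g * swap u v)) := by
      rw [← c3]
      refine Finset.sum_congr rfl fun x _ => Finset.sum_congr rfl fun y _ => ?_
      rw [ih]
    have main : ∑ x, ∑ y, J x y / 2 * ringSum J (m + 1) (swap x y * g) =
        ∑ x, ∑ y, J x y / 2 * ringSum J (m + 1) (g * swap x y) := by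
      rw [c4, e', c1, c2, Finset.sum_comm]
      refine Finset.sum_congr rfl fun z _ => Finset.sum_congr rfl fun w _ => ?_
      rw [mul_assoc (swap w.1 w.2) g (swap z.1 z.2)]
      ring
    rw [ring_succ]
    exact main

/-- reversal of the words -/
theorem ring_inv (J : V → V → ℝ) (m : ℕ) : ∀ g : Perm V, ringSum J m g⁻¹ = ringSum J m g := by
  induction m with
  | zero =>
    intro g
    unfold ringSum
    simp only [inv_eq_one]
  | succ m ih =>
    intro g
    rw [ring_succ, ring_right]
    refine Finset.sum_congr rfl fun x _ => Finset.sum_congr rfl fun y _ => ?_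
    rw [← ih (g * swap x y), mul_inv_rev, swap_inv]

theorem law_inv (J : V → V → ℝ) (t : ℝ) (g : Perm V) : law J t g⁻¹ = law J t g := by
  unfold law
  congr 1
  unfold stirMass
  refine tsum_congr fun m => ?_
  rw [ring_inv]

theorem law_stir (J : V → V → ℝ) (t : ℝ) (g : Perm V) :
    Pool.Agent.Y998.ST.stirLaw J t g = law J t g := by
  have hlaw : Pool.Agent.Y998.ST.stirLaw J t g =
      Real.exp (-(t * Pool.Agent.Y998.ST.totalRate J)) * stirMass J t g :=
    Pool.Agent.W805.LR.series_eq J t g
  have hsum : ∑ g, stirMass J t g = Real.exp (t * Pool.Agent.Y998.ST.totalRate J) :=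
    Pool.Agent.W805.LR.sum_mass J t
  unfold Pool.Agent.TH268.PD.law
  rw [hsum, hlaw, Real.exp_neg, div_eq_inv_mul]

/-- the mean as an expectation of stirring -/
theorem mn_stir (J : V → V → ℝ) (t : ℝ) (F : Perm V → ℝ) :
    Pool.Agent.Y998.ST.stirExp J t (fun g => F g⁻¹) = mn J t F := by
  unfold Pool.Agent.Y998.ST.stirExp Pool.Agent.N795.ST.mn
  rw [← Equiv.sum_comp (Equiv.inv (Perm V))]
  refine Finset.sum_congr rfl fun g _ => ?_
  rw [law_stir, Equiv.inv_apply, law_inv]
  show law J t g * F g⁻¹⁻¹ = law J t g * F g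
  rw [inv_inv]

end N286kol

open N286kol

/-- Kolmogorov's equation -/
theorem kol : Kol := by
  intro V _ _ J t F
  have h1 := Pool.Agent.Y998.ST.exp_deriv J t (fun g => F g⁻¹)
  have h2 : (fun u => Pool.Agent.Y998.ST.stirExp J u (fun g => F g⁻¹)) = fun s => mn J s F :=
    funext fun u => mn_stir J u F
  rw [h2] at h1
  refine h1.congr_deriv ?_
  have h3 : ∀ x y : V, Pool.Agent.Y998.ST.stirExp J t (fun g => F (swap x y * g)⁻¹) =
      mn J t (fun g => F (g * swap x y)) := by
    intro x y
    rw [← mn_stir]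
    have e : (fun g : Perm V => F (swap x y * g)⁻¹) = fun g => F (g⁻¹ * swap x y) := by
      funext g
      rw [mul_inv_rev, swap_inv]
    rw [e]
  simp only [h3, mn_stir]
  unfold Pool.Agent.N795.ST.mn
  simp only [Finset.mul_sum]
  symm
  rw [Finset.sum_comm]
  refine Finset.sum_congr rfl fun x _ => ?_
  rw [Finset.sum_comm]
  refine Finset.sum_congr rfl fun y _ => ?_
  rw [← Finset.sum_sub_distrib, Finset.mul_sum]
  refine Finset.sum_congr rfl fun g _ => ?_
  ring

end Pool.Agent.N795.SO
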