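import Pool.Agent.N988.ET.Stm

/-!
# Project ET, M1b: existence and mean cost of the algorithms
-/

set_option autoImplicit false

namespace Pool.Agent.N286.ET

open MeasureTheory
open Pool.Agent.N988.EA Pool.Agent.N988.EC Pool.Agent.N988.EP Pool.Agent.N988.ES
open Pool.Agent.N988.ET

noncomputable section

/-! ### existence -/

open Classical in
theorem exists_runs (h : S_B1) {b n : ℕ} (hb : 1 ≤ b) {p : ℝ} (h0 : 0 < p) (h1 : p < 1) (m : ℕ) :
    ∀ a : Edge b n → Option Bool, (Finset.univ.filter fun e => a e = none).card = m →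
      ∃ t, Runs p t a := by
  induction m using Nat.strong_induction_on with
  | _ m ih =>
    intro a ha
    by_cases hk : Known a
    · exact ⟨.stop, hk⟩
    · obtain ⟨e₀, he₀, -⟩ := (h b n hb p h0 h1).2.2.2.2 a hk
      obtain ⟨e, he, hmax⟩ := Finset.exists_max_image (Finset.univ.filter fun e => a e = none)
        (fun e => pp p a e) ⟨e₀, by simp [he₀]⟩
      have hea : a e = none := (Finset.mem_filter.1 he).2
      have hlt : ∀ x : Bool, (Finset.univ.filter fun e' => Function.update a e (some x) e' = none).card <
          m := by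
        intro x
        rw [← ha]
        refine Finset.card_lt_card ⟨fun e' he' => ?_, fun hsub => ?_⟩
        · have h2 := (Finset.mem_filter.1 he').2
          have h3 : e' ≠ e := by
            intro h4
            rw [h4, Function.update_self] at h2
            cases h2
          rw [Function.update_of_ne h3] at h2
          simp [h2]
        · have h2 := (Finset.mem_filter.1 (hsub he)).2
          rw [Function.update_self] at h2
          cases h2
      obtain ⟨t, ht⟩ := ih _ (hlt false) _ rfl
      obtain ⟨u, hu⟩ := ih _ (hlt true) _ rfl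
      exact ⟨.ask e t u, hk, ⟨hea, fun e' he' => hmax e' (by simp [he'])⟩, ht, hu⟩

/-! ### the algorithms do not query an edge twice -/

/-- the algorithm does not query `e` -/
def noq {ι : Type} (e : ι) : Pool.Agent.N988.ET.Tree ι → Prop
  | .stop => True
  | .ask i t u => i ≠ e ∧ noq e t ∧ noq e u

open Classical in
theorem noq_of {b n : ℕ} {p : ℝ} (e : Edge b n) (t : Pool.Agent.N988.ET.Tree (Edge b n)) :
    ∀ a : Edge b n → Option Bool, Runs p t a → a e ≠ none → noq e t := by
  induction t with
  | stop => intro _ _ _; trivial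
  | ask i t u iht ihu =>
    rintro a ⟨-, hbest, ht, hu⟩ hae
    have hie : i ≠ e := by
      intro h
      rw [h] at hbest
      exact hae hbest.1
    refine ⟨hie, iht _ ht ?_, ihu _ hu ?_⟩
    · rw [Function.update_of_ne (Ne.symm hie)]
      exact hae
    · rw [Function.update_of_ne (Ne.symm hie)]
      exact hae

theorem steps_update {ι : Type} [DecidableEq ι] (e : ι) (t : Pool.Agent.N988.ET.Tree ι) :
    noq e t → ∀ (w : ι → Bool) (x : Bool), steps t (Function.update w e x) = steps t w := by
  induction t with
  | stop => intro _ _ _; rfl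
  | ask i t u iht ihu =>
    rintro ⟨hie, ht, hu⟩ w x
    unfold steps
    rw [Function.update_of_ne hie, iht ht, ihu hu]

/-! ### the law -/

/-- the weight of a value -/
def qq (p : ℝ) (x : Bool) : ℝ := if x then 1 - p else p

theorem coin_real {p : ℝ} (h0 : 0 < p) (h1 : p < 1) (x : Bool) :
    (coin (1 - p) {x}).toReal = qq p x := by
  unfold coin qq
  rw [Measure.add_apply, Measure.smul_apply, Measure.smul_apply, smul_eq_mul, smul_eq_mul,
    Measure.dirac_apply, Measure.dirac_apply]
  cases x
  · simp [h0.le]
  · simp [h1.le]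

theorem coin_fin {p : ℝ} (h0 : 0 < p) (h1 : p < 1) : IsProbabilityMeasure (coin (1 - p)) := by
  constructor
  unfold coin
  rw [Measure.add_apply, Measure.smul_apply, Measure.smul_apply, smul_eq_mul, smul_eq_mul,
    measure_univ, measure_univ, mul_one, mul_one, ← ENNReal.ofReal_add (by linarith) (by linarith)]
  simp

open Classical in
theorem int_eq {b n : ℕ} {p : ℝ} (h0 : 0 < p) (h1 : p < 1) (f : (Edge b n → Bool) → ℝ) :
    ∫ w, f w ∂(iid (coin (1 - p)) b n) =
      ∑ w : Edge b n → Bool, (∏ e, qq p (w e)) * f w := by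
  have := coin_fin h0 h1
  unfold iid
  rw [integral_fintype (Integrable.of_finite)]
  refine Finset.sum_congr rfl fun w _ => ?_
  rw [smul_eq_mul]
  congr 1
  rw [Measure.real, Measure.pi_singleton, ENNReal.toReal_prod]
  exact Finset.prod_congr rfl fun e _ => coin_real h0 h1 (w e)

theorem one_eq {b n : ℕ} {p : ℝ} (h0 : 0 < p) (h1 : p < 1) :
    ∫ _w, (1 : ℝ) ∂(iid (coin (1 - p)) b n) = 1 := by
  have := coin_fin h0 h1
  have : IsProbabilityMeasure (iid (coin (1 - p)) b n) := by
    unfold iid
    infer_instance
  simp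

theorem split {ι : Type} [Fintype ι] [DecidableEq ι] (p : ℝ) (e : ι) (f : (ι → Bool) → ℝ)
    (hf : ∀ w x, f (Function.update w e x) = f w) (x : Bool) :
    ∑ w : ι → Bool, (∏ i, qq p (w i)) * (if w e = x then f w else 0) =
      qq p x * ∑ w : ι → Bool, (∏ i, qq p (w i)) * f w := by
  have key : ∀ G : (ι → Bool) → ℝ, ∑ w : ι → Bool, (∏ i, qq p (w i)) * G w =
      ∑ y : Bool, ∑ v : {j // j ≠ e} → Bool, (qq p y * ∏ j, qq p (v j)) *
        G ((Equiv.funSplitAt e Bool).symm (y, v)) := by
    intro G
    rw [← Fintype.sum_prod_type']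
    refine Fintype.sum_equiv (Equiv.funSplitAt e Bool) _ _ fun w => ?_
    simp only [Prod.mk.eta, Equiv.symm_apply_apply]
    rw [Fintype.prod_eq_mul_prod_subtype_ne (fun i => qq p (w i)) e]
    rfl
  have h1 : ∀ (y : Bool) (v : {j // j ≠ e} → Bool),
      (Equiv.funSplitAt e Bool).symm (y, v) e = y := by
    intro y v
    simp [Equiv.funSplitAt, Equiv.piSplitAt]
  have h2 : ∀ (y : Bool) (v : {j // j ≠ e} → Bool),
      f ((Equiv.funSplitAt e Bool).symm (y, v)) = f ((Equiv.funSplitAt e Bool).symm (false, v)) := by
    intro y v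
    rw [← hf ((Equiv.funSplitAt e Bool).symm (false, v)) y]
    congr 1
    funext j
    by_cases hj : j = e
    · subst hj
      rw [Function.update_self, h1]
    · rw [Function.update_of_ne hj]
      simp [Equiv.funSplitAt, Equiv.piSplitAt, hj]
  rw [key, key]
  simp only [h1, Fintype.sum_bool]
  have h3 : ∀ v : {j // j ≠ e} → Bool, f ((Equiv.funSplitAt e Bool).symm (true, v)) =
      f ((Equiv.funSplitAt e Bool).symm (false, v)) := fun v => h2 true v
  simp only [h3]
  have h4 : ∀ y : Bool, ∑ v : {j // j ≠ e} → Bool, (qq p y * ∏ j, qq p (v j)) *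
      f ((Equiv.funSplitAt e Bool).symm (false, v)) = qq p y * ∑ v : {j // j ≠ e} → Bool,
      (∏ j, qq p (v j)) * f ((Equiv.funSplitAt e Bool).symm (false, v)) := by
    intro y
    rw [Finset.mul_sum]
    exact Finset.sum_congr rfl fun v _ => by ring
  have h5 : qq p true + qq p false = 1 := by
    unfold qq
    simp
  cases x
  · simp only [Bool.true_eq_false, if_false, mul_zero, Finset.sum_const_zero, zero_add, if_true, h4]
    rw [← add_mul, h5, one_mul]
  · simp only [Bool.false_eq_true, if_false, mul_zero, Finset.sum_const_zero, add_zero, if_true, h4]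
    rw [← add_mul, h5, one_mul]

open Classical in
theorem mean {b n : ℕ} {p : ℝ} (h0 : 0 < p) (h1 : p < 1) (t : Pool.Agent.N988.ET.Tree (Edge b n)) :
    ∀ a : Edge b n → Option Bool, Runs p t a →
      ∑ w : Edge b n → Bool, (∏ e, qq p (w e)) * (steps t w : ℝ) = cost p t := by
  induction t with
  | stop =>
    intro a _
    refine Finset.sum_eq_zero fun w _ => ?_
    show _ * ((0 : ℕ) : ℝ) = 0
    rw [Nat.cast_zero, mul_zero]
  | ask e t u iht ihu =>
    rintro a ⟨-, -, ht, hu⟩
    have hnt : noq e t := noq_of e t _ ht (by rw [Function.update_self]; exact Option.some_ne_none _)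
    have hnu : noq e u := noq_of e u _ hu (by rw [Function.update_self]; exact Option.some_ne_none _)
    have e1 : ∀ w : Edge b n → Bool, (∏ e, qq p (w e)) * (steps (.ask e t u) w : ℝ) =
        (∏ e, qq p (w e)) * 1 + (∏ i, qq p (w i)) * (if w e = true then (steps u w : ℝ) else 0) +
          (∏ i, qq p (w i)) * (if w e = false then (steps t w : ℝ) else 0) := by
      intro w
      rw [← mul_add, ← mul_add]
      congr 1
      have e2 : steps (.ask e t u) w = 1 + if w e then steps u w else steps t w := rfl
      rw [e2]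
      cases w e <;> simp
    have s1 := split p e (fun w => (steps u w : ℝ))
      (fun w x => by rw [steps_update e u hnu w x]) true
    have s2 := split p e (fun w => (steps t w : ℝ))
      (fun w x => by rw [steps_update e t hnt w x]) false
    rw [Finset.sum_congr rfl fun w _ => e1 w, Finset.sum_add_distrib, Finset.sum_add_distrib,
      s1, s2, iht _ ht, ihu _ hu, ← int_eq h0 h1 (fun _ => 1), one_eq h0 h1]
    have e3 : cost p (.ask e t u) = 1 + p * cost p t + (1 - p) * cost p u := rfl
    rw [e3]
    unfold qq
    simp only [if_true, Bool.false_eq_true, if_false]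
    ring

theorem t_B2 (h : S_B1) : S_B2 := by
  intro b n hb p h0 h1
  refine ⟨fun a => exists_runs h hb h0 h1 _ a rfl, fun t a ha => ?_⟩
  rw [int_eq h0 h1 (fun w => (steps t w : ℝ))]
  exact mean h0 h1 t a ha

end

end Pool.Agent.N286.ET
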