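import Pool.Agent.N988.EZ.Stm
import Pool.Agent.N80.EA_H

/-!
# Project EZ (helper988): no ties

By helper286.
-/

set_option autoImplicit false

open MeasureTheory Set
open scoped ENNReal
open Pool.Agent.N988.EA Pool.Agent.N80.EA Pool.Agent.N988.EZ

namespace Pool.Agent.N286.EZ

/-! ### The function `ps` -/

lemma meas_ps : Measurable (fun p : ℝ × ℝ => ps p.1 p.2) := by
  unfold ps
  fun_prop

lemma ps_eq {a b x : ℝ} (h : ps a b = x) : |a| = |x| ∨ |b| = |x| := by
  subst h
  unfold ps
  rcases abs_cases (a + b) with ⟨h1, h1'⟩ | ⟨h1, h1'⟩ <;>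
  rcases abs_cases (a - b) with ⟨h2, h2'⟩ | ⟨h2, h2'⟩ <;> rw [h1, h2]
  · right; congr 1; ring
  · left; congr 1; ring
  · left; rw [← abs_neg a]; congr 1; ring
  · right; rw [← abs_neg b]; congr 1; ring

/-! ### The laws -/

/-- the law of a branch -/
noncomputable def br0 (ν : Measure ℝ) : Measure ℝ := (ν.prod ν).map fun p => ps p.1 p.2

/-- the law of `b` branches -/
noncomputable def ls0 (b : ℕ) (ν : Measure ℝ) : Measure ℝ :=
  (Measure.pi fun _ : Fin b => br0 ν).map fun y => ∑ i, y i

/-- the law of the effective coupling -/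
noncomputable def lw0 (μ : Measure ℝ) (b : ℕ) : ℕ → Measure ℝ
  | 0 => μ
  | n + 1 => ls0 b (lw0 μ b n)

instance instBr0 (ν : Measure ℝ) [IsProbabilityMeasure ν] : IsProbabilityMeasure (br0 ν) :=
  Measure.isProbabilityMeasure_map meas_ps.aemeasurable

instance instLs0 (b : ℕ) (ν : Measure ℝ) [IsProbabilityMeasure ν] :
    IsProbabilityMeasure (ls0 b ν) :=
  Measure.isProbabilityMeasure_map (meas_sum b).aemeasurable

lemma lw0_prob (μ : Measure ℝ) [IsProbabilityMeasure μ] (b : ℕ) :
    ∀ n : ℕ, IsProbabilityMeasure (lw0 μ b n)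
  | 0 => by unfold lw0; infer_instance
  | n + 1 => by
    have := lw0_prob μ b n
    unfold lw0
    infer_instance

instance instLw0 (μ : Measure ℝ) [IsProbabilityMeasure μ] (b n : ℕ) :
    IsProbabilityMeasure (lw0 μ b n) := lw0_prob μ b n

lemma abs_null {ν : Measure ℝ} (ha : ∀ x, ν {x} = 0) (x : ℝ) : ν {a | |a| = |x|} = 0 := by
  have h1 : {a : ℝ | |a| = |x|} ⊆ {x} ∪ {-x} := by
    intro a h
    rcases abs_eq_abs.1 h with h | h
    · exact Or.inl h
    · exact Or.inr h
  exact measure_mono_null h1 (measure_union_null (ha _) (ha _))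

lemma br0_null {ν : Measure ℝ} [IsProbabilityMeasure ν] (ha : ∀ x, ν {x} = 0) (x : ℝ) :
    br0 ν {x} = 0 := by
  unfold br0
  rw [Measure.map_apply meas_ps (measurableSet_singleton x)]
  have h1 : (fun p : ℝ × ℝ => ps p.1 p.2) ⁻¹' {x} ⊆
      (Prod.fst ⁻¹' {a | |a| = |x|}) ∪ (Prod.snd ⁻¹' {a | |a| = |x|}) := by
    intro p h
    rcases ps_eq (show ps p.1 p.2 = x from h) with h | h
    · exact Or.inl h
    · exact Or.inr h
  have hm : MeasurableSet {a : ℝ | |a| = |x|} :=
    measurableSet_eq_fun (by fun_prop) measurable_const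
  refine measure_mono_null h1 (measure_union_null ?_ ?_)
  · rw [measurePreserving_fst.measure_preimage hm.nullMeasurableSet]
    exact abs_null ha x
  · rw [measurePreserving_snd.measure_preimage hm.nullMeasurableSet]
    exact abs_null ha x

lemma ls0_null {b : ℕ} (hb : 1 ≤ b) {ν : Measure ℝ} [IsProbabilityMeasure ν]
    (ha : ∀ x, ν {x} = 0) (x : ℝ) : ls0 b ν {x} = 0 := by
  obtain ⟨m, rfl⟩ : ∃ m, b = m + 1 := ⟨b - 1, by omega⟩
  unfold ls0
  rw [Measure.map_apply (meas_sum _) (measurableSet_singleton x)]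
  have h1 := measurePreserving_piFinSuccAbove (fun _ : Fin (m + 1) => br0 ν) 0
  set S : Set (ℝ × (Fin m → ℝ)) := {p | p.1 + ∑ j, p.2 j = x} with hS
  have hSm : MeasurableSet S := measurableSet_eq_fun (by fun_prop) measurable_const
  have h2 : (fun y : Fin (m + 1) → ℝ => ∑ i, y i) ⁻¹' {x} =
      (MeasurableEquiv.piFinSuccAbove (fun _ : Fin (m + 1) => ℝ) 0) ⁻¹' S := by
    ext y
    show ∑ i, y i = x ↔ y 0 + ∑ j : Fin m, y (Fin.succAbove 0 j) = x
    rw [Fin.sum_univ_succAbove y 0]
  rw [h2, h1.measure_preimage hSm.nullMeasurableSet, Measure.prod_apply_symm hSm]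
  rw [lintegral_eq_zero_iff (measurable_measure_prodMk_right hSm)]
  refine Filter.Eventually.of_forall fun z => ?_
  have h3 : (fun a : ℝ => (a, z)) ⁻¹' S = {x - ∑ j, z j} := by
    ext a
    show a + ∑ j, z j = x ↔ a = x - ∑ j, z j
    exact ⟨fun h => by linarith, fun h => by linarith⟩
  show br0 ν ((fun a : ℝ => (a, z)) ⁻¹' S) = 0
  rw [h3]
  exact br0_null ha _

lemma lw0_null {b : ℕ} (hb : 1 ≤ b) {μ : Measure ℝ} [IsProbabilityMeasure μ]
    (ha : ∀ x, μ {x} = 0) : ∀ (n : ℕ) (x : ℝ), lw0 μ b n {x} = 0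
  | 0 => ha
  | n + 1 => ls0_null hb (lw0_null hb ha n)

/-! ### The effective couplings -/

lemma meas_K0 (b : ℕ) : ∀ n : ℕ, Measurable (K0 n : (Edge b n → ℝ) → ℝ) := by
  intro n
  induction n with
  | zero => exact measurable_pi_apply _
  | succ n ih =>
    have h1 : (K0 (n + 1) : (Edge b (n + 1) → ℝ) → ℝ) =
        fun J => ∑ i : Fin b, ps (K0 n (half i false J)) (K0 n (half i true J)) := rfl
    rw [h1]
    refine Finset.measurable_sum _ fun i _ => ?_
    have h2 : Measurable (fun J : Edge b (n + 1) → ℝ =>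
        (K0 n (half i false J), K0 n (half i true J))) :=
      (ih.comp (meas_half i false)).prodMk (ih.comp (meas_half i true))
    exact Measurable.comp (g := fun p : ℝ × ℝ => ps p.1 p.2)
      (f := fun J : Edge b (n + 1) → ℝ => (K0 n (half i false J), K0 n (half i true J))) meas_ps h2

section

variable (μ : Measure ℝ) [IsProbabilityMeasure μ] (b : ℕ)

lemma mp_two0 {n : ℕ} (h : MeasurePreserving (K0 n) (P μ b n) (lw0 μ b n)) :
    MeasurePreserving (fun (L : Bool × Edge b n → ℝ) =>
      (K0 n (fun e => L (false, e)), K0 n (fun e => L (true, e))))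
      (Measure.pi fun _ : Bool × Edge b n => μ) ((lw0 μ b n).prod (lw0 μ b n)) :=
  (h.prod h).comp (mp_halves μ b n)

lemma mp_K0 : ∀ n : ℕ, MeasurePreserving (K0 n) (P μ b n) (lw0 μ b n) := by
  intro n
  induction n with
  | zero => exact measurePreserving_eval (fun _ : Edge b 0 => μ) ()
  | succ n ih =>
    have h0 : MeasurePreserving (fun p : ℝ × ℝ => ps p.1 p.2)
        ((lw0 μ b n).prod (lw0 μ b n)) (br0 (lw0 μ b n)) := ⟨meas_ps, rfl⟩
    have h1 := h0.comp (mp_two0 μ b ih)
    have h2 := measurePreserving_pi (fun _ : Fin b => Measure.pi fun _ : Bool × Edge b n => μ)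
      (fun _ : Fin b => br0 (lw0 μ b n)) (fun _ => h1)
    have h3 : MeasurePreserving (fun y : Fin b → ℝ => ∑ i, y i)
        (Measure.pi fun _ : Fin b => br0 (lw0 μ b n)) (lw0 μ b (n + 1)) := ⟨meas_sum b, rfl⟩
    have h4 := (h3.comp h2).comp (mp_branches μ b n)
    have h5 : (K0 (n + 1) : (Edge b (n + 1) → ℝ) → ℝ) =
        fun J => ∑ i : Fin b, ps (K0 n fun e => J (i, false, e)) (K0 n fun e => J (i, true, e)) :=
      rfl
    rw [h5]
    simp only [Function.comp_def] at h4
    exact h4

/-- the halves have the law `P` -/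
lemma mp_half (n : ℕ) (i : Fin b) (h : Bool) :
    MeasurePreserving (half i h) (P μ b (n + 1)) (P μ b n) := by
  have h1 := (measurePreserving_eval (fun _ : Fin b => Measure.pi fun _ : Bool × Edge b n => μ)
    i).comp (mp_branches μ b n)
  exact (measurePreserving_eval (fun _ : Bool => Measure.pi fun _ : Edge b n => μ)
    h).comp ((mp_curry (α := Bool) (β := Edge b n) μ).comp h1)

/-- the couplings of the two halves of a branch -/
lemma mp_pair (n : ℕ) (i : Fin b) :
    MeasurePreserving (fun J : Edge b (n + 1) → ℝ => (K0 n (half i false J), K0 n (half i true J)))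
      (P μ b (n + 1)) ((lw0 μ b n).prod (lw0 μ b n)) := by
  have h1 := (measurePreserving_eval (fun _ : Fin b => Measure.pi fun _ : Bool × Edge b n => μ)
    i).comp (mp_branches μ b n)
  exact (mp_two0 μ b (mp_K0 μ b n)).comp h1

end

lemma prod_ne {ν : Measure ℝ} [IsProbabilityMeasure ν] (ha : ∀ x, ν {x} = 0) :
    ∀ᵐ p ∂(ν.prod ν), |p.1| ≠ |p.2| := by
  have hm : MeasurableSet {p : ℝ × ℝ | |p.1| = |p.2|} :=
    measurableSet_eq_fun (by fun_prop) (by fun_prop)
  rw [ae_iff]
  simp only [ne_eq, not_not]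
  rw [Measure.measure_prod_null hm]
  refine Filter.Eventually.of_forall fun x => ?_
  show ν {y | |x| = |y|} = 0
  have h1 : {y : ℝ | |x| = |y|} = {y | |y| = |x|} := by
    ext y
    exact eq_comm
  rw [h1]
  exact abs_null ha x

/-! ### No ties -/

lemma um_zero {b : ℕ} (J : Edge b 0 → ℝ) : UM J := by
  intro τ
  have hs : Subsingleton (Vert b 0 → Bool) := inferInstanceAs (Subsingleton (Empty → Bool))
  refine ⟨fun x => (x : Empty).elim, fun s => ?_, fun y _ => Subsingleton.elim _ _⟩
  rw [Subsingleton.elim s (fun x => (x : Empty).elim)]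

lemma sg_mul (s : Bool) {x : ℝ} (hx : x ≠ 0) : 0 ≤ sg s * x ↔ s = decide (0 < x) := by
  unfold sg
  rcases lt_or_gt_of_ne hx with h | h
  · have h' : ¬ 0 < x := not_lt.2 h.le
    cases s
    · simp [h', h.le]
    · simp [h', not_le.2 h]
  · cases s
    · simp only [Bool.false_eq_true, ↓reduceIte, neg_mul, one_mul, Left.nonneg_neg_iff]
      constructor
      · intro h'; exact absurd h (not_lt.2 h')
      · intro h'; simp [h] at h'
    · simp [h, h.le]

lemma sg_abs (s : Bool) (x : ℝ) : |x * sg s| = |x| := by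
  unfold sg
  cases s <;> simp

lemma um_succ (h : S_RS) {b n : ℕ} {J : Edge b (n + 1) → ℝ}
    (h1 : ∀ (i : Fin b) (k : Bool), UM (half i k J))
    (h2 : ∀ i : Fin b, |K0 n (half i false J)| ≠ |K0 n (half i true J)|) : UM J := by
  intro τ
  set S : Fin b → ℝ := fun i => (K0 n (half i false J)) * sg (τ false) +
      (K0 n (half i true J)) * sg (τ true) with hS
  have hne : ∀ i, S i ≠ 0 := by
    intro i h0
    apply h2 i
    have h3 : K0 n (half i false J) * sg (τ false) = -(K0 n (half i true J) * sg (τ true)) := by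
      have h4 : K0 n (half i false J) * sg (τ false) + K0 n (half i true J) * sg (τ true) = 0 := h0
      linarith
    have h5 := congrArg abs h3
    rwa [abs_neg, sg_abs, sg_abs] at h5
  choose f hf hf' using fun (i : Fin b) (k : Bool) => h1 i k (he τ k (decide (0 < S i)))
  set σ : Vert b (n + 1) → Bool := fun x => Sum.elim (fun i : Fin b => decide (0 < S i))
    (fun q : Fin b × Bool × Vert b n => f q.1 q.2.1 q.2.2) x with hσ
  refine ⟨σ, ?_, ?_⟩
  · show Mx J τ σ
    rw [h b n J τ σ]
    intro i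
    exact ⟨fun k => hf i k, (sg_mul _ (hne i)).2 rfl⟩
  · intro σ' hσ'
    have h3 := (h b n J τ σ').1 hσ'
    have h4 : ∀ i : Fin b, σ' (Sum.inl i) = decide (0 < S i) := fun i =>
      (sg_mul _ (hne i)).1 (h3 i).2
    have h5 : ∀ (i : Fin b) (k : Bool), (fun x => σ' (Sum.inr (i, k, x))) = f i k := by
      intro i k
      apply hf' i k
      have := (h3 i).1 k
      rw [h4 i] at this
      exact this
    funext x
    rcases x with i | ⟨i, k, x⟩
    · exact h4 i
    · exact congrFun (h5 i k) x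

/-- **No ties.** -/
theorem t_AT (h : S_RS) : S_AT := by
  intro b hb μ _ ha n
  refine ⟨meas_K0 b n, fun x => ?_, ?_⟩
  · rw [(mp_K0 μ b n).map_eq]
    exact lw0_null hb ha n x
  · induction n with
    | zero => exact Filter.Eventually.of_forall fun J => um_zero J
    | succ n ih =>
      have e1 : ∀ᵐ J ∂(P μ b (n + 1)), ∀ (i : Fin b) (k : Bool), UM (half i k J) := by
        rw [ae_all_iff]
        intro i
        rw [ae_all_iff]
        intro k
        exact (mp_half μ b n i k).quasiMeasurePreserving.ae ih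
      have e2 : ∀ᵐ J ∂(P μ b (n + 1)), ∀ i : Fin b,
          |K0 n (half i false J)| ≠ |K0 n (half i true J)| := by
        rw [ae_all_iff]
        intro i
        exact (mp_pair μ b n i).quasiMeasurePreserving.ae (prod_ne (lw0_null hb ha n))
      filter_upwards [e1, e2] with J k1 k2
      exact um_succ h k1 k2

end Pool.Agent.N286.EZ
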