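import Pool.Agent.N906.FH.Stm
import Pool.Agent.N232.SZ_LO

/-!
# Project FH (helper906), part LO3: the lower bound for the stable height

By helper286; adapted from `Pool.Agent.N232.SZ_LO` (helper232).
-/

set_option autoImplicit false

namespace Pool.Agent.N286.FH

open Finset Filter Topology
open Pool.Agent.N906.SZ Pool.Agent.N906.FH
open Pool.Agent.N232.SZ (dvd_of_Cn Dd_le rd_eq rd_pos)

/-! ### the comparison of the main terms -/

theorem cmp {κ ε ε' : ℝ} (a C₀ : ℝ) (hκ0 : 0 < κ) (hκ1 : κ < 1) (hε0 : 0 < ε) (hε1 : ε < 1)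
    (hε' : ε' ≤ ε / 4) (hε'0 : 0 < ε') : ∀ᶠ X : ℝ in atTop,
    C₀ + (1 - ε) * √(8 * κ * X / Real.log X) ≤
      (1 - ε') * √(8 * (κ * X + a) / Real.log (κ * X + a)) := by
  set M := max (2 * C₀ / ε) 1 with hM
  have hM1 : 1 ≤ M := le_max_right _ _
  have hM0 : 2 * C₀ / ε ≤ M := le_max_left _ _
  have hlog := Real.isLittleO_log_id_atTop.def (c := 8 * κ / M ^ 2) (by positivity)
  have t1 : Tendsto (fun X : ℝ => κ * X) atTop atTop := tendsto_id.const_mul_atTop hκ0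
  have e1 := t1.eventually_ge_atTop (2 - a)
  have e2 := t1.eventually_ge_atTop (4 * (-a) / ε)
  have e3 := (tendsto_id.const_mul_atTop (by linarith : (0 : ℝ) < 1 - κ)).eventually_ge_atTop a
  filter_upwards [hlog, e1, e2, e3, eventually_gt_atTop (1 : ℝ)] with X h1 h2 h3 h4 h5
  have hX0 : 0 < X := by linarith
  have hlX : 0 < Real.log X := Real.log_pos h5
  have hZ2 : 2 ≤ κ * X + a := by linarith
  have hZX : κ * X + a ≤ X := by
    have : (1 - κ) * X ≥ a := h4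
    linarith
  have hlZ : 0 < Real.log (κ * X + a) := Real.log_pos (by linarith)
  have hllZ : Real.log (κ * X + a) ≤ Real.log X := Real.log_le_log (by linarith) hZX
  have hlow : (1 - ε / 4) * (κ * X) ≤ κ * X + a := by
    rw [div_le_iff₀ hε0] at h3
    linarith
  set Y := √(8 * κ * X / Real.log X) with hY
  have hY0 : 0 ≤ Y := Real.sqrt_nonneg _
  have hYM : M ≤ Y := by
    apply Real.le_sqrt_of_sq_le
    rw [le_div_iff₀ hlX]
    rw [Real.norm_of_nonneg hlX.le, id, Real.norm_of_nonneg hX0.le] at h1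
    have hM2 : 0 < M ^ 2 := by positivity
    calc M ^ 2 * Real.log X ≤ M ^ 2 * (8 * κ / M ^ 2 * X) := by gcongr
      _ = 8 * κ * X := by field_simp
  have hmain : (1 - ε / 4) * Y ≤ √(8 * (κ * X + a) / Real.log (κ * X + a)) := by
    apply Real.le_sqrt_of_sq_le
    rw [mul_pow, hY, Real.sq_sqrt (by positivity)]
    have h6 : (1 - ε / 4) ^ 2 ≤ 1 - ε / 4 := by nlinarith
    calc (1 - ε / 4) ^ 2 * (8 * κ * X / Real.log X) ≤ (1 - ε / 4) * (8 * κ * X / Real.log X) := by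
          gcongr
      _ = 8 * ((1 - ε / 4) * (κ * X)) / Real.log X := by ring
      _ ≤ 8 * (κ * X + a) / Real.log X := by gcongr
      _ ≤ 8 * (κ * X + a) / Real.log (κ * X + a) := by
          gcongr
  have hC : C₀ ≤ ε / 2 * Y := by
    rw [div_le_iff₀ hε0] at hM0
    nlinarith
  have h7 : (1 - ε') * ((1 - ε / 4) * Y) ≤ (1 - ε') *
      √(8 * (κ * X + a) / Real.log (κ * X + a)) := by
    apply mul_le_mul_of_nonneg_left hmain
    linarith
  have h8 : (1 - ε / 2) * Y ≤ (1 - ε') * ((1 - ε / 4) * Y) := by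
    rw [← mul_assoc]
    apply mul_le_mul_of_nonneg_right _ hY0
    nlinarith
  linarith

/-- `q` is determined by the local exponents -/
theorem q_unique {z P : ℝ} {a D : ℤ} {q q' : ℕ} (hq : q ≠ 0) (hq' : q' ≠ 0)
    (h1 : ∀ p ∈ q.primeFactors, z < (p : ℝ) ∧ (p : ℝ) ≤ P)
    (h2 : ∀ p ∈ q'.primeFactors, z < (p : ℝ) ∧ (p : ℝ) ≤ P)
    (h : ∀ p : ℕ, p.Prime → z < (p : ℝ) → (p : ℝ) ≤ P →
        (¬ (p : ℤ) ∣ a → D.natAbs.factorization p - 1 = q.factorization p) ∧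
        ((p : ℤ) ∣ a → q.factorization p = 0))
    (h' : ∀ p : ℕ, p.Prime → z < (p : ℝ) → (p : ℝ) ≤ P →
        (¬ (p : ℤ) ∣ a → D.natAbs.factorization p - 1 = q'.factorization p) ∧
        ((p : ℤ) ∣ a → q'.factorization p = 0)) : q = q' := by
  have key : ∀ p : ℕ, q.factorization p = q'.factorization p := by
    intro p
    by_cases hp : p.Prime ∧ z < (p : ℝ) ∧ (p : ℝ) ≤ P
    · obtain ⟨hp0, hp1, hp2⟩ := hp
      have g := h p hp0 hp1 hp2
      have g' := h' p hp0 hp1 hp2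
      by_cases ha : (p : ℤ) ∣ a
      · rw [g.2 ha, g'.2 ha]
      · rw [← g.1 ha, ← g'.1 ha]
    · have n1 : p ∉ q.primeFactors := fun hm =>
        hp ⟨Nat.prime_of_mem_primeFactors hm, h1 p hm⟩
      have n2 : p ∉ q'.primeFactors := fun hm =>
        hp ⟨Nat.prime_of_mem_primeFactors hm, h2 p hm⟩
      have m1 : q.factorization p = 0 := by
        rwa [← Finsupp.notMem_support_iff, Nat.support_factorization]
      have m2 : q'.factorization p = 0 := by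
        rwa [← Finsupp.notMem_support_iff, Nat.support_factorization]
      rw [m1, m2]
  exact Nat.eq_of_factorization_eq hq hq' key

/-- The lower bound for the stable height. -/
theorem lo3 (h1 : S_GAIN) (h2 : S_WIN1) (h3 : S_LOW3) : S_LO3 := by
  classical
  obtain ⟨c₁, c, C₀, hc₁, hc, hC₀, hlow⟩ := h3
  refine ⟨C₀, ?_⟩
  intro lam A ε hl0 hl1 hA hε0 hε1
  obtain ⟨κ, hκ⟩ : ∃ κ : ℝ, κ = 6 * lam := ⟨_, rfl⟩
  have hκ0 : 0 < κ := by rw [hκ]; linarith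
  have hκ1 : κ < 1 := by rw [hκ]; linarith
  obtain ⟨ε', hε'0, hε'1, hε'2⟩ : ∃ ε' : ℝ, 0 < ε' ∧ ε' ≤ ε / 4 ∧ ε' ≤ (1 - κ) / 6 :=
    ⟨min (ε / 4) ((1 - κ) / 6), lt_min (by linarith) (by linarith), min_le_left _ _,
      min_le_right _ _⟩
  obtain ⟨Z₀, hZ₀, hwin⟩ := h2 ε' c₁ hε'0 (by linarith) hc₁
  obtain ⟨a, ha⟩ : ∃ a : ℝ, a = Real.log A + lam * Real.log 31 := ⟨_, rfl⟩
  have ha0 : 0 ≤ a := by
    rw [ha]
    have := Real.log_nonneg hA
    have := Real.log_nonneg (by norm_num : (1 : ℝ) ≤ 31)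
    positivity
  have t1 : Tendsto (fun L : ℝ => κ * L) atTop atTop := tendsto_id.const_mul_atTop hκ0
  have e1 := t1.eventually_ge_atTop (Z₀ - a)
  have e2 := t1.eventually_ge_atTop (C₀ ^ 2 - a)
  have t2 : Tendsto (fun L : ℝ => (1 - κ) * L) atTop atTop :=
    tendsto_id.const_mul_atTop (by linarith : (0 : ℝ) < 1 - κ)
  have e3 := t2.eventually_ge_atTop (2 * (Real.log (C₀ * 5) + (1 + 3 * ε') * a))
  have e4 := t1.eventually_ge_atTop ((1 / ε') ^ 2 - a)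
  have e6 := cmp a (a - Real.log (c / 5)) hκ0 hκ1 hε0 hε1 hε'1 hε'0
  have hev := e1.and (e2.and (e3.and (e4.and (e6.and (eventually_ge_atTop (1 : ℝ))))))
  obtain ⟨L₀, hL₀⟩ := Filter.eventually_atTop.1 hev
  refine ⟨max (Real.exp L₀) 4, lt_max_of_lt_right (by norm_num), fun X hX => ?_⟩
  have hX4 : 4 ≤ X := (le_max_right _ _).trans hX
  have hX0 : 0 < X := by linarith
  obtain ⟨L, hL⟩ : ∃ L : ℝ, L = Real.log X := ⟨_, rfl⟩
  have hXL : X = Real.exp L := by rw [hL, Real.exp_log hX0]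
  have hLL : L₀ ≤ L := by
    rw [hL, Real.le_log_iff_exp_le hX0]
    exact (le_max_left _ _).trans hX
  obtain ⟨f1, f2, f3, f4, f6, f7⟩ := hL₀ L hLL
  obtain ⟨Z, hZ⟩ : ∃ Z : ℝ, Z = κ * L + a := ⟨_, rfl⟩
  rw [← hZ] at f6
  have hZZ : Z₀ ≤ Z := by linarith
  have hZ1 : 1 < Z := by linarith
  have hCZ : C₀ ≤ √Z := by
    apply Real.le_sqrt_of_sq_le
    linarith
  obtain ⟨F, hF, hFs⟩ := hwin Z hZZ
  obtain ⟨T, hT⟩ : ∃ T : ℝ, T = Real.exp Z := ⟨_, rfl⟩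
  have hTA : A * (31 * X ^ 6) ^ lam = T := by
    have g1 : (31 * X ^ 6 : ℝ) ^ lam = Real.exp (lam * (Real.log 31 + 6 * L)) := by
      rw [Real.rpow_def_of_pos (by positivity), Real.log_mul (by norm_num) (by positivity),
        Real.log_pow, hL]
      congr 1
      push_cast
      ring
    rw [g1, hT, hZ, ha, hκ]
    nth_rw 1 [← Real.exp_log (lt_of_lt_of_le one_pos hA)]
    rw [← Real.exp_add]
    congr 1
    ring
  have hT0 : 0 < T := by rw [hT]; exact Real.exp_pos _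
  obtain ⟨P, hP⟩ : ∃ P : ℝ, P = Real.exp (ε' * Z) := ⟨_, rfl⟩
  have hP0 : 0 < P := by rw [hP]; exact Real.exp_pos _
  have hzP : √Z ≤ P := by
    have k1 : √Z ≤ ε' * Z := by
      have k2 : 1 / ε' ≤ √Z := by
        apply Real.le_sqrt_of_sq_le
        linarith
      rw [div_le_iff₀ hε'0] at k2
      have k3 : √Z * √Z = Z := Real.mul_self_sqrt (by linarith)
      have k4 : √Z * 1 ≤ √Z * (√Z * ε') := mul_le_mul_of_nonneg_left k2 (Real.sqrt_nonneg _)
      calc √Z = √Z * 1 := (mul_one _).symm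
        _ ≤ √Z * (√Z * ε') := k4
        _ = ε' * (√Z * √Z) := by ring
        _ = ε' * Z := by rw [k3]
    rw [hP]
    linarith [Real.add_one_le_exp (ε' * Z)]
  -- facts on the numbers
  have hfac : ∀ x ∈ F, 1 ≤ x ∧ (rd x : ℝ) ≤ P ∧
      rd x = (∏ p ∈ x.primeFactors, p) ∧
      (∀ p ∈ x.primeFactors, √Z < (p : ℝ) ∧ (p : ℝ) ≤ P) ∧ (x : ℝ) ≤ T := by
    intro x hx
    obtain ⟨g1, g4, g6, g7, g8⟩ := hF x hx
    have hrd : rd x = ∏ p ∈ x.primeFactors, p :=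
      rd_eq fun p hp => by linarith [g4 p hp]
    have hprod : 0 < ∏ p ∈ x.primeFactors, p :=
      Finset.prod_pos fun p hp => (Nat.prime_of_mem_primeFactors hp).pos
    have hrP : (rd x : ℝ) ≤ P := by
      rw [hrd, hP, ← Real.log_le_iff_le_exp (by exact_mod_cast hprod)]
      exact g7
    refine ⟨g1, hrP, hrd, fun p hp => ⟨g4 p hp, ?_⟩, ?_⟩
    · refine le_trans ?_ hrP
      rw [hrd]
      exact_mod_cast Nat.le_of_dvd hprod (Finset.dvd_prod_of_mem _ hp)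
    · rw [hT, ← Real.log_le_iff_le_exp (by exact_mod_cast g1)]
      exact g6
  -- the points for a number
  have hG : ∀ x : ℕ, ∃ G : Finset (ℤ × ℤ), x ∈ F →
      (∀ y ∈ G, Mn y.1 y.2 ∧ |(y.1 : ℝ)| ≤ X ^ 2 ∧ |(y.2 : ℝ)| ≤ X ^ 3 ∧ y.1 % 6 = 1 ∧
        (∀ p : ℕ, p.Prime → C₀ ≤ (p : ℝ) → (p : ℤ) ∣ y.1 → ¬ (p : ℤ) ∣ y.2) ∧
        A * (Nc y.1 y.2 : ℝ) * |((Dd y.1 y.2 : ℤ) : ℝ)| ^ lam ≤ |((Dd y.1 y.2 : ℤ) : ℝ)|) ∧
      (∀ y ∈ G, ∀ p : ℕ, p.Prime → √Z < (p : ℝ) → (p : ℝ) ≤ P →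
        (¬ (p : ℤ) ∣ y.1 → (Dd y.1 y.2).natAbs.factorization p - 1 = x.factorization p) ∧
        ((p : ℤ) ∣ y.1 → x.factorization p = 0)) ∧
      c * X ^ 5 / (5 * T) * (1 / ((∏ p ∈ x.primeFactors, p : ℕ) : ℝ)) ≤ G.card := by
    intro q
    by_cases hx : q ∈ F
    swap
    · exact ⟨∅, fun h => absurd h hx⟩
    obtain ⟨g1, g4, g6, g7, g8⟩ := hF q hx
    obtain ⟨-, k1, k2, k3, k4⟩ := hfac q hx
    have hqpos : (0 : ℝ) < (q : ℝ) := by exact_mod_cast g1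
    obtain ⟨j, hj1, hj2⟩ : ∃ j : ℕ, T ≤ 5 ^ j * (q : ℝ) ∧ 5 ^ j * (q : ℝ) ≤ 5 * T := by
      obtain ⟨n, hn1, hn2⟩ := exists_nat_pow_near (x := T / (q : ℝ)) (y := 5)
        (by rw [le_div_iff₀ hqpos]; linarith) (by norm_num)
      rw [le_div_iff₀ hqpos] at hn1
      rw [div_lt_iff₀ hqpos] at hn2
      exact ⟨n + 1, hn2.le, by rw [pow_succ]; linarith⟩
    have hrdq1 : (1 : ℝ) ≤ rd q := by exact_mod_cast rd_pos q
    have hm : C₀ * ((5 : ℝ) ^ j * q * rd q) * P ^ 2 ≤ X := by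
      have m0 : C₀ * ((5 : ℝ) ^ j * q * rd q) * P ^ 2 ≤ C₀ * (5 * T * P) * P ^ 2 := by
        gcongr
      refine m0.trans ?_
      have m1 : C₀ * (5 * T * P) * P ^ 2 = Real.exp (Real.log (C₀ * 5) + Z + 3 * (ε' * Z)) := by
        rw [Real.exp_add, Real.exp_add, Real.exp_log (by positivity), ← hT]
        have : Real.exp (3 * (ε' * Z)) = P ^ 3 := by
          rw [hP, ← Real.exp_nat_mul]
          norm_num
        rw [this]
        ring
      rw [m1, hXL, Real.exp_le_exp, hZ]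
      have m2 : (1 - κ) * L ≥ 2 * (Real.log (C₀ * 5) + (1 + 3 * ε') * a) := f3
      have m3 : 3 * ε' * (κ * L) ≤ (1 - κ) / 2 * L := by
        have m4 : 3 * ε' * κ ≤ (1 - κ) / 2 := by nlinarith
        calc 3 * ε' * (κ * L) = (3 * ε' * κ) * L := by ring
          _ ≤ (1 - κ) / 2 * L := mul_le_mul_of_nonneg_right m4 (by linarith)
      nlinarith
    obtain ⟨G, hG1, hG2⟩ := hlow X (√Z) P j q g1 hCZ hzP k3 g8 hm
    refine ⟨G, fun _ => ⟨fun y hy => ?_, fun y hy => (hG1 y hy).2.2.2.2.2.2, ?_⟩⟩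
    · obtain ⟨y1, y2, y3, y5, y6, y4, -⟩ := hG1 y hy
      refine ⟨y1, y2, y3, y5, y6, ?_⟩
      obtain ⟨n, hn1, -, hn2⟩ := h1 y.1 y.2 y1.1
      have hdvd : 5 ^ j * q ∣ n := dvd_of_Cn y1.1 (by positivity) (by omega) y4 hn2
      have hle : ((5 ^ j * q : ℕ) : ℝ) ≤ n := by
        exact_mod_cast Nat.le_of_dvd (by omega) hdvd
      have hTn : T ≤ n := by
        refine hj1.trans (le_trans (le_of_eq ?_) hle)
        push_cast; ring
      have hD : |((Dd y.1 y.2 : ℤ) : ℝ)| = n * Nc y.1 y.2 := by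
        rw [← Int.cast_abs, ← Nat.cast_natAbs, hn2]
        push_cast; rfl
      have hD2 := Dd_le y2 y3
      have hD3 : |((Dd y.1 y.2 : ℤ) : ℝ)| ^ lam ≤ (31 * X ^ 6) ^ lam :=
        Real.rpow_le_rpow (abs_nonneg _) hD2 hl0.le
      calc A * (Nc y.1 y.2 : ℝ) * |((Dd y.1 y.2 : ℤ) : ℝ)| ^ lam
          ≤ A * (Nc y.1 y.2 : ℝ) * (31 * X ^ 6) ^ lam := by gcongr
        _ = T * Nc y.1 y.2 := by rw [← hTA]; ring
        _ ≤ n * Nc y.1 y.2 := by gcongr
        _ = |((Dd y.1 y.2 : ℤ) : ℝ)| := hD.symm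
    · refine le_trans ?_ hG2
      rw [← k2, div_mul_div_comm, mul_one]
      apply div_le_div_of_nonneg_left (by positivity) (by positivity)
      gcongr
  choose G hG using hG
  refine ⟨F.biUnion G, ?_, ?_⟩
  · intro y hy
    obtain ⟨x, hx, hyx⟩ := Finset.mem_biUnion.1 hy
    exact (hG x hx).1 y hyx
  · have hdisj : ∀ x ∈ F, ∀ x' ∈ F, x ≠ x' → Disjoint (G x) (G x') := by
      intro x hx x' hx' hne
      rw [Finset.disjoint_left]
      intro y hy hy'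
      apply hne
      obtain ⟨a1, -, -, a3, -⟩ := hfac x hx
      obtain ⟨b1, -, -, b3, -⟩ := hfac x' hx'
      exact q_unique (by omega) (by omega) a3 b3
        ((hG x hx).2.1 y hy) ((hG x' hx').2.1 y hy')
    have hcard : ((F.biUnion G).card : ℝ) = ∑ x ∈ F, ((G x).card : ℝ) := by
      rw [Finset.card_biUnion hdisj]
      push_cast
      rfl
    rw [hcard]
    have g1 : c * X ^ 5 / (5 * T) * ∑ x ∈ F, (1 / ((∏ p ∈ x.primeFactors, p : ℕ) : ℝ)) ≤
        ∑ x ∈ F, ((G x).card : ℝ) := by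
      rw [Finset.mul_sum]
      exact Finset.sum_le_sum fun x hx => (hG x hx).2.2
    refine le_trans ?_ g1
    have g2 : c * X ^ 5 / (5 * T) * Real.exp ((1 - ε') * √(8 * Z / Real.log Z)) ≤
        c * X ^ 5 / (5 * T) * ∑ x ∈ F, (1 / ((∏ p ∈ x.primeFactors, p : ℕ) : ℝ)) := by
      gcongr
    refine le_trans ?_ g2
    have g3 : c * X ^ 5 / (5 * T) = Real.exp (Real.log (c / 5) + 5 * L - Z) := by
      have e5L : Real.exp (5 * L) = X ^ 5 := by
        rw [hXL, ← Real.exp_nat_mul]; norm_num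
      rw [Real.exp_sub, Real.exp_add, Real.exp_log (by positivity), e5L, ← hT]
      field_simp
    rw [g3, ← Real.exp_add, Real.exp_le_exp, ← hL]
    have g4 : 48 * lam * L = 8 * κ * L := by rw [hκ]; ring
    rw [g4]
    have g5 : Z = 6 * lam * L + a := by rw [hZ, hκ]
    linarith

end Pool.Agent.N286.FH
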