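import Mathlib
import Pool.Agent.N347.LA.Defs
import Pool.Agent.R448.TW.Split

set_option autoImplicit false

/-! Project LA (helper347), part TR: moving two edge-ends per colour.  By helper286. -/

namespace Pool.Agent.N286.LATRANSPORT

open Finset

/-- counting with one element in every fibre -/
theorem cnt {E L : Type} [Fintype E] [Fintype L] [DecidableEq L] (f : E → L) (p : E → Prop)
    [DecidablePred p] (h : ∀ q, (univ.filter (fun e => f e = q ∧ p e)).card = 1) (Q : L → Prop)
    [DecidablePred Q] :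
    ∑ e : E, (if p e ∧ Q (f e) then 1 else 0) = (univ.filter Q).card := by
  rw [← card_filter]
  refine card_bij (fun e _ => f e) ?_ ?_ ?_
  · intro e he
    exact mem_filter.2 ⟨mem_univ _, (mem_filter.1 he).2.2⟩
  · intro e he e' he' hee
    obtain ⟨a, ha⟩ := card_eq_one.1 (h (f e))
    have m1 : e ∈ univ.filter (fun e1 => f e1 = f e ∧ p e1) :=
      mem_filter.2 ⟨mem_univ _, rfl, (mem_filter.1 he).2.1⟩
    have m2 : e' ∈ univ.filter (fun e1 => f e1 = f e ∧ p e1) :=
      mem_filter.2 ⟨mem_univ _, hee.symm, (mem_filter.1 he').2.1⟩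
    rw [ha, mem_singleton] at m1 m2
    rw [m1, m2]
  · intro q hq
    obtain ⟨a, ha⟩ := card_eq_one.1 (h q)
    have m1 : a ∈ univ.filter (fun e1 => f e1 = q ∧ p e1) := by
      rw [ha]
      exact mem_singleton_self _
    obtain ⟨_, h1, h2⟩ := mem_filter.1 m1
    exact ⟨a, mem_filter.2 ⟨mem_univ _, h2, by rw [h1]; exact (mem_filter.1 hq).2⟩, h1⟩

/-- a regular bipartite multigraph has a perfect matching -/
theorem reg {E L R : Type} [Fintype E] [DecidableEq E] [Fintype L] [DecidableEq L] [Fintype R]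
    [DecidableEq R] (f : E → L) (h : E → R) (w : ℕ) (hw : 0 < w)
    (hf : ∀ q, (univ.filter (fun e => f e = q)).card = w)
    (hh : ∀ y, (univ.filter (fun e => h e = y)).card = w) :
    ∃ ℓ : E → ℕ, (∀ q, (univ.filter (fun e => f e = q ∧ ℓ e = 0)).card = 1) ∧
      ∀ y, (univ.filter (fun e => h e = y ∧ ℓ e = 0)).card = 1 := by
  have c1 : Fintype.card E = Fintype.card L * w := by
    rw [← card_univ, card_eq_sum_card_fiberwise (f := f) (t := univ) (fun e _ => mem_univ _),
      sum_congr rfl (fun q _ => hf q), sum_const, card_univ, smul_eq_mul]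
  have c2 : Fintype.card E = Fintype.card R * w := by
    rw [← card_univ, card_eq_sum_card_fiberwise (f := h) (t := univ) (fun e _ => mem_univ _),
      sum_congr rfl (fun q _ => hh q), sum_const, card_univ, smul_eq_mul]
  have c3 : Fintype.card R = Fintype.card L :=
    Nat.eq_of_mul_eq_mul_right hw (c2.symm.trans c1)
  let φ : R ≃ L := Fintype.equivOfCardEq c3
  obtain ⟨ℓ, hℓ, hℓ1, hℓ2⟩ := Pool.Agent.R41.Even.konig f (fun e => φ (h e)) w univ hf (by
    intro v
    rw [← hh (φ.symm v)]
    congr 1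
    ext e
    simp only [mem_filter, mem_univ, true_and]
    exact (Equiv.eq_symm_apply φ).symm)
  have one : ∀ (Z : Type) [DecidableEq Z] (u : E → Z),
      (∀ y, (univ.filter (fun e => u e = y)).card = w) →
      (∀ e ∈ univ, ∀ e' ∈ univ, u e = u e' → ℓ e = ℓ e' → e = e') →
      ∀ y, (univ.filter (fun e => u e = y ∧ ℓ e = 0)).card = 1 := by
    intro Z _ u hu hinj y
    have h3 : (univ.filter (fun e => u e = y)).image ℓ = range w := by
      refine eq_of_subset_of_card_le ?_ ?_
      · intro y hy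
        obtain ⟨e, _, rfl⟩ := mem_image.1 hy
        exact mem_range.2 (hℓ e (mem_univ _))
      · rw [card_range, card_image_of_injOn, hu]
        intro e he e' he' hee
        have h4 := (mem_filter.1 (mem_coe.1 he)).2
        have h5 := (mem_filter.1 (mem_coe.1 he')).2
        exact hinj e (mem_univ _) e' (mem_univ _) (h4.trans h5.symm) hee
    have h4 : 0 ∈ (univ.filter (fun e => u e = y)).image ℓ := by
      rw [h3]
      exact mem_range.2 hw
    obtain ⟨e, he, hei⟩ := mem_image.1 h4
    rw [card_eq_one]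
    refine ⟨e, ?_⟩
    ext e'
    rw [mem_filter, mem_singleton]
    constructor
    · rintro ⟨_, h5, h6⟩
      exact hinj e' (mem_univ _) e (mem_univ _) (h5.trans (mem_filter.1 he).2.symm)
        (h6.trans hei.symm)
    · rintro rfl
      exact ⟨mem_univ _, (mem_filter.1 he).2, hei⟩
  refine ⟨ℓ, one L f hf hℓ1, one R h hh ?_⟩
  intro e he e' he' hee
  exact hℓ2 e he e' he' (congrArg φ hee)

/-- sums over the edge-ends -/
theorem sumE {X : Type} [Fintype X] {k : ℕ} (n : Fin k → X → ℕ) (F : Fin k → X → ℕ) :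
    ∑ e : (Σ z : Fin k × X, Fin (n z.1 z.2)), F e.1.1 e.1.2 = ∑ c, ∑ x, n c x * F c x := by
  rw [Fintype.sum_sigma, Fintype.sum_prod_type]
  refine sum_congr rfl fun c _ => sum_congr rfl fun x _ => ?_
  show ∑ _y : Fin (n c x), F c x = n c x * F c x
  rw [sum_const, card_univ, Fintype.card_fin, smul_eq_mul]

/-- LA/TR -/
theorem transport {X I : Type} [Fintype X] [DecidableEq X] [DecidableEq I] (k w : ℕ) (hw : 2 ≤ w)
    (n : Fin k → X → ℕ) (r : X → ℕ) (i : Fin k → X → I)
    (h1 : ∀ c, ∑ x, n c x = 2 * w) (h2 : ∀ x, ∑ c, n c x = w * r x)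
    (h3 : ∀ c j, Even (∑ x ∈ univ.filter (fun x => i c x = j), n c x)) :
    ∃ t : Fin k → X → ℕ, (∀ c x, t c x ≤ n c x) ∧ (∀ c, ∑ x, t c x = 2) ∧
      (∀ x, ∑ c, t c x = r x) ∧
      ∀ c j, 2 * ∑ x ∈ univ.filter (fun x => i c x = j), t c x ≤
        ∑ x ∈ univ.filter (fun x => i c x = j), n c x := by
  -- the edge-ends
  let E0 := Σ z : Fin k × X, Fin (n z.1 z.2)
  let J : Finset I := univ.image (fun z : Fin k × X => i z.1 z.2)
  have hJ : ∀ c x, i c x ∈ J := fun c x => mem_image.2 ⟨(c, x), mem_univ _, rfl⟩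
  let s : E0 → Fin k × J := fun e => (e.1.1, ⟨i e.1.1 e.1.2, hJ _ _⟩)
  let a : Fin k × J → ℕ := fun b => (∑ x ∈ univ.filter (fun x => i b.1 x = b.2.1), n b.1 x) / 2
  have ha : ∀ b, 2 * a b = ∑ x ∈ univ.filter (fun x => i b.1 x = b.2.1), n b.1 x := fun b =>
    Nat.two_mul_div_two_of_even (h3 b.1 b.2.1)
  have hs : ∀ b, (univ.filter (fun e => s e = b)).card = 2 * a b := by
    rintro ⟨c, j, hj⟩
    have e1 : (univ.filter (fun e => s e = (c, ⟨j, hj⟩))).card =
        ∑ e : E0, (fun (c' : Fin k) (x : X) => if c' = c then (if i c' x = j then 1 else 0) else 0)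
          e.1.1 e.1.2 := by
      rw [card_filter]
      refine sum_congr rfl fun e _ => ?_
      by_cases g1 : e.1.1 = c
      · by_cases g2 : i e.1.1 e.1.2 = j
        · rw [if_pos (Prod.ext g1 (Subtype.ext g2))]
          simp only [g1, if_true]
          rw [if_pos (by rw [← g1]; exact g2)]
        · rw [if_neg (fun h => g2 (congrArg (fun b : Fin k × J => b.2.1) h))]
          simp only [g1, if_true]
          rw [if_neg (by rw [← g1]; exact g2)]
      · rw [if_neg (fun h => g1 (congrArg (fun b : Fin k × J => b.1) h))]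
        simp only [g1, if_false]
    refine e1.trans ((sumE n (fun (c' : Fin k) (x : X) =>
      if c' = c then (if i c' x = j then 1 else 0) else 0)).trans ?_)
    rw [ha, Fintype.sum_eq_single c (fun c' hc' => by simp [hc']), sum_filter]
    refine sum_congr rfl fun x _ => ?_
    simp only [if_true]
    split_ifs
    · exact mul_one _
    · exact mul_zero _
  obtain ⟨pr, hpr1, hpr2⟩ := Pool.Agent.R448.TW.lift s 2 a hs
  have hg0 : ∀ x, (univ.filter (fun e : E0 => e.1.2 = x)).card = w * r x := by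
    intro x
    have e1 : (univ.filter (fun e : E0 => e.1.2 = x)).card =
        ∑ e : E0, (fun (_ : Fin k) (x' : X) => if x' = x then 1 else 0) e.1.1 e.1.2 := by
      rw [card_filter]
    refine e1.trans ((sumE n (fun (_ : Fin k) (x' : X) => if x' = x then 1 else 0)).trans ?_)
    rw [← h2 x]
    refine sum_congr rfl fun c _ => ?_
    rw [Fintype.sum_eq_single x (fun x' hx' => by simp [hx'])]
    simp
  obtain ⟨g, hg1, hg2⟩ := Pool.Agent.R448.TW.lift (fun e : E0 => e.1.2) w r hg0
  -- the number of the pairs of a colour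
  have hsumA : ∀ c, ∑ j : J, a (c, j) = w := by
    intro c
    have e1 : 2 * ∑ j : J, a (c, j) = 2 * w := by
      rw [mul_sum, ← h1 c, sum_congr rfl (fun j _ => ha (c, j))]
      have e2 : ∑ j : J, ∑ x ∈ univ.filter (fun x => i c x = j.1), n c x =
          ∑ j ∈ J, ∑ x ∈ univ.filter (fun x => i c x = j), n c x :=
        Finset.sum_coe_sort J (fun j => ∑ x ∈ univ.filter (fun x => i c x = j), n c x)
      rw [e2]
      exact Finset.sum_fiberwise_of_maps_to (fun x _ => hJ c x) (fun x => n c x)
    omega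
  have hcol : ∀ c, (univ.filter (fun q : (Σ b : Fin k × J, Fin (a b)) => q.1.1 = c)).card = w := by
    intro c
    rw [card_filter, Fintype.sum_sigma, Fintype.sum_prod_type,
      Fintype.sum_eq_single c (fun c' hc' => by simp [hc']), ← hsumA c]
    refine sum_congr rfl fun j _ => ?_
    simp
  -- the graph
  let D := Σ _ : (Σ b : Fin k × J, Fin (a b)), Fin (w - 2)
  let f : E0 ⊕ D → (Σ b : Fin k × J, Fin (a b)) := Sum.elim pr (fun d => d.1)
  let h : E0 ⊕ D → (Σ x : X, Fin (r x)) ⊕ (Fin k × Fin (w - 2)) :=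
    Sum.elim (fun e => Sum.inl (g e)) (fun d => Sum.inr (d.1.1.1, d.2))
  have hf : ∀ q, (univ.filter (fun e => f e = q)).card = w := by
    intro q
    rw [card_filter, Fintype.sum_sum_type]
    have e1 : ∑ e : E0, (if f (Sum.inl e) = q then 1 else 0) = 2 := by
      rw [← hpr2 q, card_filter]
      rfl
    have e2 : ∑ d : D, (if f (Sum.inr d) = q then 1 else 0) = w - 2 := by
      rw [Fintype.sum_sigma, Fintype.sum_eq_single q (fun q' hq' => by simp [f, hq'])]
      simp [f]
    rw [e1, e2]
    omega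
  have hh : ∀ y, (univ.filter (fun e => h e = y)).card = w := by
    rintro (y | ⟨c, δ⟩)
    · rw [card_filter, Fintype.sum_sum_type]
      have e1 : ∑ e : E0, (if h (Sum.inl e) = Sum.inl y then 1 else 0) = w := by
        refine Eq.trans ?_ (hg2 y)
        rw [card_filter]
        refine sum_congr rfl fun e _ => ?_
        simp [h]
      have e2 : ∑ d : D, (if h (Sum.inr d) = Sum.inl y then 1 else 0) = 0 :=
        sum_eq_zero fun d _ => by simp [h]
      rw [e1, e2, add_zero]
    · rw [card_filter, Fintype.sum_sum_type]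
      have e1 : ∑ e : E0, (if h (Sum.inl e) = Sum.inr (c, δ) then 1 else 0) = 0 :=
        sum_eq_zero fun d _ => by simp [h]
      have e2 : ∑ d : D, (if h (Sum.inr d) = Sum.inr (c, δ) then 1 else 0) = w := by
        refine Eq.trans ?_ (hcol c)
        rw [card_filter, Fintype.sum_sigma]
        refine sum_congr rfl fun q _ => ?_
        by_cases hq : q.1.1 = c
        · rw [if_pos hq, Fintype.sum_eq_single δ (fun δ' hδ' => by simp [h, hδ'])]
          simp [h, hq]
        · rw [if_neg hq]
          exact sum_eq_zero fun δ' _ => by simp [h, hq]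
      rw [e1, e2, zero_add]
  obtain ⟨ℓ, hℓ1, hℓ2⟩ := reg f h w (by omega) hf hh
  -- the numbers
  let t : Fin k → X → ℕ := fun c x =>
    ∑ e : E0, if ℓ (Sum.inl e) = 0 ∧ (e.1.1 = c ∧ e.1.2 = x) then 1 else 0
  refine ⟨t, ?_, ?_, ?_, ?_⟩
  · intro c x
    have e1 : t c x ≤ ∑ e : E0, (fun (c' : Fin k) (x' : X) => if c' = c ∧ x' = x then 1 else 0)
        e.1.1 e.1.2 := by
      refine sum_le_sum fun e _ => ?_
      by_cases g1 : e.1.1 = c ∧ e.1.2 = x
      · by_cases g2 : ℓ (Sum.inl e) = 0 <;> simp [g1, g2]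
      · simp [g1]
    refine e1.trans (le_of_eq ?_)
    refine (sumE n (fun (c' : Fin k) (x' : X) => if c' = c ∧ x' = x then 1 else 0)).trans ?_
    rw [Fintype.sum_eq_single c (fun c' hc' => by simp [hc']),
      Fintype.sum_eq_single x (fun x' hx' => by simp [hx'])]
    simp
  · intro c
    have e1 : ∑ x, t c x = ∑ e : E0, if ℓ (Sum.inl e) = 0 ∧ e.1.1 = c then 1 else 0 := by
      rw [sum_comm]
      refine sum_congr rfl fun e _ => ?_
      rw [Fintype.sum_eq_single e.1.2 (fun x' hx' => by simp [Ne.symm hx'])]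
      simp
    have e2 := cnt f (fun e => ℓ e = 0) hℓ1 (fun q => q.1.1 = c)
    let col : (Σ x : X, Fin (r x)) ⊕ (Fin k × Fin (w - 2)) → Option (Fin k) :=
      Sum.elim (fun _ => none) (fun z => some z.1)
    have e3 := cnt h (fun e => ℓ e = 0) hℓ2 (fun y => col y = some c)
    rw [hcol c, Fintype.sum_sum_type] at e2
    rw [Fintype.sum_sum_type] at e3
    have e4 : ∑ e : E0, (if ℓ (Sum.inl e) = 0 ∧ (f (Sum.inl e)).1.1 = c then 1 else 0) =
        ∑ x, t c x := by
      rw [e1]
      refine sum_congr rfl fun e _ => ?_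
      have : (f (Sum.inl e)).1 = s e := hpr1 e
      rw [this]
    have e5 : ∑ e : E0, (if ℓ (Sum.inl e) = 0 ∧ col (h (Sum.inl e)) = some c then 1 else 0) = 0 :=
      sum_eq_zero fun e _ => by simp [h, col]
    have e6 : (univ.filter (fun y : (Σ x : X, Fin (r x)) ⊕ (Fin k × Fin (w - 2)) =>
        col y = some c)).card = w - 2 := by
      rw [card_filter, Fintype.sum_sum_type, Fintype.sum_prod_type]
      rw [sum_eq_zero (fun y _ => by simp [col]), zero_add,
        Fintype.sum_eq_single c (fun c' hc' => by simp [col, hc'])]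
      simp [col]
    have e7 : ∑ d : D, (if ℓ (Sum.inr d) = 0 ∧ col (h (Sum.inr d)) = some c then 1 else 0) =
        ∑ d : D, (if ℓ (Sum.inr d) = 0 ∧ (f (Sum.inr d)).1.1 = c then 1 else 0) := by
      refine sum_congr rfl fun d _ => ?_
      simp [col, h, f]
    rw [e5, e6, e7] at e3
    rw [e4] at e2
    omega
  · intro x
    have e1 : ∑ c, t c x = ∑ e : E0, if ℓ (Sum.inl e) = 0 ∧ e.1.2 = x then 1 else 0 := by
      rw [sum_comm]
      refine sum_congr rfl fun e _ => ?_
      rw [Fintype.sum_eq_single e.1.1 (fun x' hx' => by simp [Ne.symm hx'])]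
      simp
    let pt : (Σ x : X, Fin (r x)) ⊕ (Fin k × Fin (w - 2)) → Option X :=
      Sum.elim (fun z => some z.1) (fun _ => none)
    have e3 := cnt h (fun e => ℓ e = 0) hℓ2 (fun y => pt y = some x)
    rw [Fintype.sum_sum_type] at e3
    have e5 : ∑ d : D, (if ℓ (Sum.inr d) = 0 ∧ pt (h (Sum.inr d)) = some x then 1 else 0) =
        0 := sum_eq_zero fun e _ => by simp [h, pt]
    have e6 : (univ.filter (fun y : (Σ x : X, Fin (r x)) ⊕ (Fin k × Fin (w - 2)) =>
        pt y = some x)).card = r x := by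
      rw [card_filter, Fintype.sum_sum_type, Fintype.sum_sigma]
      rw [sum_eq_zero (s := (univ : Finset (Fin k × Fin (w - 2)))) (fun y _ => by simp [pt]),
        add_zero, Fintype.sum_eq_single x (fun c' hc' => by simp [pt, hc'])]
      simp [pt]
    have e7 : ∑ e : E0, (if ℓ (Sum.inl e) = 0 ∧ pt (h (Sum.inl e)) = some x then 1 else 0) =
        ∑ c, t c x := by
      rw [e1]
      refine sum_congr rfl fun e _ => ?_
      have : (g e).1 = e.1.2 := hg1 e
      simp [h, pt, this]
    rw [e5, e6, e7, add_zero] at e3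
    exact e3
  · intro c j
    have e1 : ∑ x ∈ univ.filter (fun x => i c x = j), t c x =
        ∑ e : E0, if ℓ (Sum.inl e) = 0 ∧ (e.1.1 = c ∧ i c e.1.2 = j) then 1 else 0 := by
      rw [sum_filter]
      have : ∀ x, (if i c x = j then t c x else 0) =
          ∑ e : E0, if ℓ (Sum.inl e) = 0 ∧ (e.1.1 = c ∧ e.1.2 = x ∧ i c x = j) then 1 else 0 := by
        intro x
        by_cases g1 : i c x = j
        · simp [g1, t]
        · simp [g1]
      rw [sum_congr rfl (fun x _ => this x), sum_comm]
      refine sum_congr rfl fun e _ => ?_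
      rw [Fintype.sum_eq_single e.1.2 (fun x' hx' => by simp [Ne.symm hx'])]
      simp
    by_cases hj : j ∈ J
    · have e2 := cnt f (fun e => ℓ e = 0) hℓ1 (fun q => q.1 = (c, ⟨j, hj⟩))
      rw [Fintype.sum_sum_type] at e2
      have e3 : (univ.filter (fun q : (Σ b : Fin k × J, Fin (a b)) => q.1 = (c, ⟨j, hj⟩))).card =
          a (c, ⟨j, hj⟩) := by
        rw [card_filter, Fintype.sum_sigma,
          Fintype.sum_eq_single (c, ⟨j, hj⟩) (fun c' hc' => by simp [hc'])]
        simp
      have e4 : ∑ e : E0, (if ℓ (Sum.inl e) = 0 ∧ (f (Sum.inl e)).1 = (c, ⟨j, hj⟩) then 1 else 0) =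
          ∑ x ∈ univ.filter (fun x => i c x = j), t c x := by
        rw [e1]
        refine sum_congr rfl fun e _ => ?_
        have g0 : (f (Sum.inl e)).1 = s e := hpr1 e
        have g1 : (f (Sum.inl e)).1 = (c, ⟨j, hj⟩) ↔ (e.1.1 = c ∧ i c e.1.2 = j) := by
          rw [g0]
          constructor
          · intro g2
            have g3 : e.1.1 = c := congrArg (fun b : Fin k × J => b.1) g2
            have g4 : i e.1.1 e.1.2 = j := congrArg (fun b : Fin k × J => b.2.1) g2
            exact ⟨g3, by rw [← g3]; exact g4⟩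
          · rintro ⟨g3, g4⟩
            refine Prod.ext g3 (Subtype.ext ?_)
            show i e.1.1 e.1.2 = j
            rw [g3]
            exact g4
        simp only [g1]
      have e5 := ha (c, ⟨j, hj⟩)
      simp only at e5
      rw [e3, e4] at e2
      rw [← e5]
      omega
    · have : univ.filter (fun x => i c x = j) = ∅ := by
        rw [filter_eq_empty_iff]
        intro x _ g1
        exact hj (g1 ▸ hJ c x)
      rw [this]
      simp

end Pool.Agent.N286.LATRANSPORT
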