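import Pool.Agent.N804.LI.StmL

/-!
# Project LI: partial fractions and their Laplace transforms (`S_PFR`)
-/

set_option autoImplicit false

namespace Pool.Agent.N286.LIPFR

open Filter Topology MeasureTheory Set Pool.Agent.N804.LI

variable {Z : Type} {z a : Z → ℂ}

theorem ctb (hf : ∀ R : ℝ, {k | ‖z k‖ ≤ R}.Finite) : Countable Z := by
  have h : (Set.univ : Set Z) = ⋃ n : ℕ, {k | ‖z k‖ ≤ (n : ℝ)} := by
    ext k
    simp only [mem_univ, mem_iUnion, mem_setOf_eq, true_iff]
    exact exists_nat_ge ‖z k‖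
  rw [← Set.countable_univ_iff, h]
  exact Set.countable_iUnion fun n => (hf n).countable

theorem sep (hf : ∀ R : ℝ, {k | ‖z k‖ ≤ R}.Finite) (s : ℂ) :
    ∃ d : ℝ, 0 < d ∧ ∀ k, z k ≠ s → d ≤ ‖z k - s‖ := by
  have hfin : (z '' {k | ‖z k‖ ≤ ‖s‖ + 1 ∧ z k ≠ s}).Finite :=
    ((hf (‖s‖ + 1)).subset fun k hk => hk.1).image z
  have hs : s ∈ (z '' {k | ‖z k‖ ≤ ‖s‖ + 1 ∧ z k ≠ s})ᶜ := by
    rintro ⟨k, hk, hk2⟩
    exact hk.2 hk2
  obtain ⟨d, hd, hball⟩ := Metric.isOpen_iff.1 hfin.isClosed.isOpen_compl s hs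
  refine ⟨min d 1, lt_min hd one_pos, fun k hk => ?_⟩
  by_cases h : ‖z k‖ ≤ ‖s‖ + 1
  · refine (min_le_left _ _).trans ?_
    by_contra hlt
    push Not at hlt
    refine hball (Metric.mem_ball.2 (by rw [dist_eq_norm]; exact hlt)) ⟨k, ⟨h, hk⟩, rfl⟩
  · refine (min_le_right _ _).trans ?_
    push Not at h
    have := norm_sub_norm_le (z k) s
    linarith

theorem part1 (hs : Summable fun k => ‖a k‖) (hf : ∀ R : ℝ, {k | ‖z k‖ ≤ R}.Finite) (s : ℂ)
    (hz : ∀ k, z k ≠ s) : AnalyticAt ℂ (fun s => ∑' k, a k / (s - z k)) s := by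
  obtain ⟨d, hd, hsep⟩ := sep hf s
  have hlow : ∀ w ∈ Metric.ball s (d / 2), ∀ k, d / 2 ≤ ‖w - z k‖ := by
    intro w hw k
    have h1 := hsep k (hz k)
    have h2 : ‖w - s‖ < d / 2 := by rw [← dist_eq_norm]; exact hw
    have h3 : ‖z k - s‖ ≤ ‖w - z k‖ + ‖w - s‖ := by
      calc ‖z k - s‖ = ‖(w - s) - (w - z k)‖ := by congr 1; ring
        _ ≤ ‖w - s‖ + ‖w - z k‖ := norm_sub_le _ _
        _ = _ := add_comm _ _
    linarith
  have hdiff : DifferentiableOn ℂ (fun w => ∑' k, a k / (w - z k)) (Metric.ball s (d / 2)) := by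
    refine Complex.differentiableOn_tsum_of_summable_norm (u := fun k => ‖a k‖ / (d / 2))
      (hs.div_const _) (fun k => ?_) Metric.isOpen_ball (fun k w hw => ?_)
    · refine DifferentiableOn.div (differentiableOn_const _)
        (differentiableOn_id.sub (differentiableOn_const _)) fun w hw => ?_
      have := hlow w hw k
      have h0 : 0 < ‖w - z k‖ := by linarith
      exact norm_pos_iff.1 h0
    · rw [norm_div]
      have := hlow w hw k
      exact div_le_div_of_nonneg_left (norm_nonneg _) (by linarith) this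
  exact hdiff.analyticAt (Metric.ball_mem_nhds s (by linarith))

open Classical in
theorem part2 (hs : Summable fun k => ‖a k‖) (hf : ∀ R : ℝ, {k | ‖z k‖ ≤ R}.Finite) (s0 : ℂ) :
    ∃ C δ : ℝ, 0 < δ ∧ ∀ s : ℂ, s ≠ s0 → ‖s - s0‖ < δ →
    ‖(∑' k, a k / (s - z k)) - (∑' k, if z k = s0 then a k else 0) / (s - s0)‖ ≤ C := by
  obtain ⟨d, hd, hsep⟩ := sep hf s0
  refine ⟨∑' k, ‖a k‖ / (d / 2), d / 2, by linarith, fun s hs0 hsd => ?_⟩
  have hb : Summable fun k => (if z k = s0 then a k else 0) / (s - s0) := by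
    refine Summable.div_const ?_ _
    refine Summable.of_norm_bounded hs fun k => ?_
    split_ifs
    · exact le_rfl
    · rw [norm_zero]; exact norm_nonneg _
  have hcb : ∀ k, ‖(if z k = s0 then 0 else a k / (s - z k) : ℂ)‖ ≤ ‖a k‖ / (d / 2) := by
    intro k
    split_ifs with h
    · rw [norm_zero]; positivity
    · rw [norm_div]
      have h1 := hsep k h
      have h3 : ‖z k - s0‖ ≤ ‖s - z k‖ + ‖s - s0‖ := by
        calc ‖z k - s0‖ = ‖(s - s0) - (s - z k)‖ := by congr 1; ring
          _ ≤ ‖s - s0‖ + ‖s - z k‖ := norm_sub_le _ _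
          _ = _ := add_comm _ _
      exact div_le_div_of_nonneg_left (norm_nonneg _) (by linarith) (by linarith)
  have hc : Summable fun k => (if z k = s0 then 0 else a k / (s - z k) : ℂ) :=
    Summable.of_norm_bounded (hs.div_const _) hcb
  have e : (∑' k, a k / (s - z k)) = (∑' k, if z k = s0 then a k else 0) / (s - s0) +
      ∑' k, (if z k = s0 then 0 else a k / (s - z k) : ℂ) := by
    rw [← tsum_div_const, ← hb.tsum_add hc]
    refine tsum_congr fun k => ?_
    split_ifs with h
    · rw [h, add_zero]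
    · rw [zero_div, zero_add]
  rw [e, add_sub_cancel_left]
  refine (norm_tsum_le_tsum_norm hc.norm).trans ?_
  exact hc.norm.tsum_le_tsum hcb (hs.div_const _)

theorem bd {b y : ℝ} (hy : 0 ≤ y) {k : Z} (hb : (z k).re ≤ b) :
    ‖a k * Complex.exp (z k * y)‖ ≤ ‖a k‖ * Real.exp (b * y) := by
  rw [norm_mul, Complex.norm_exp]
  refine mul_le_mul_of_nonneg_left (Real.exp_le_exp.2 ?_) (norm_nonneg _)
  rw [Complex.mul_re, Complex.ofReal_re, Complex.ofReal_im, mul_zero, sub_zero]
  exact mul_le_mul_of_nonneg_right hb hy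

theorem part3 (hs : Summable fun k => ‖a k‖) {b : ℝ} (hb : ∀ k, (z k).re ≤ b) :
    Continuous (fun y : ℝ => ∑' k, a k * Complex.exp (z k * max y 0)) := by
  rw [continuous_iff_continuousAt]
  intro y
  have hcont : ContinuousOn (fun y : ℝ => ∑' k, a k * Complex.exp (z k * max y 0))
      (Iio (|y| + 1)) := by
    refine continuousOn_tsum (u := fun k => ‖a k‖ * Real.exp (|b| * (|y| + 1))) (fun k => ?_)
      (hs.mul_right _) (fun k x hx => ?_)
    · exact Continuous.continuousOn (continuous_const.mul (Complex.continuous_exp.comp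
        (continuous_const.mul (Complex.continuous_ofReal.comp
          (continuous_id.max continuous_const)))))
    · refine (bd (le_max_right x 0) (hb k)).trans ?_
      refine mul_le_mul_of_nonneg_left (Real.exp_le_exp.2 ?_) (norm_nonneg _)
      have h1 : max x 0 ≤ |y| + 1 := max_le (le_of_lt hx) (by positivity)
      calc b * max x 0 ≤ |b| * max x 0 :=
            mul_le_mul_of_nonneg_right (le_abs_self b) (le_max_right x 0)
        _ ≤ |b| * (|y| + 1) := mul_le_mul_of_nonneg_left h1 (abs_nonneg b)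
  exact hcont.continuousAt (Iio_mem_nhds (by have := le_abs_self y; linarith))

theorem part4 (hs : Summable fun k => ‖a k‖) (hf : ∀ R : ℝ, {k | ‖z k‖ ≤ R}.Finite) {b : ℝ}
    (hb : ∀ k, (z k).re ≤ b) (s : ℂ) (hbs : b < s.re) :
    IntegrableOn (fun y : ℝ => (∑' k, a k * Complex.exp (z k * y)) * Complex.exp (-(s * y)))
      (Ioi 0) ∧
    ∫ y in Ioi (0 : ℝ), (∑' k, a k * Complex.exp (z k * y)) * Complex.exp (-(s * y)) =
      ∑' k, a k / (s - z k) := by
  have hZ : Countable Z := ctb hf
  have hre : ∀ k, (z k - s).re < 0 := fun k => by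
    have := hb k
    rw [Complex.sub_re]
    linarith
  have e1 : ∀ (k : Z) (y : ℝ), a k * Complex.exp (z k * y) * Complex.exp (-(s * y)) =
      a k * Complex.exp ((z k - s) * y) := by
    intro k y
    rw [mul_assoc, ← Complex.exp_add]
    congr 2
    ring
  have hns : ∀ y : ℝ, ‖Complex.exp (-(s * y))‖ = Real.exp (-(s.re * y)) := by
    intro y
    rw [Complex.norm_exp, Complex.neg_re, Complex.mul_re, Complex.ofReal_re, Complex.ofReal_im,
      mul_zero, sub_zero]
  constructor
  · have hcont : Continuous (fun y : ℝ => (∑' k, a k * Complex.exp (z k * max y 0)) *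
        Complex.exp (-(s * y))) :=
      (part3 hs hb).mul (Complex.continuous_exp.comp
        (continuous_const.mul Complex.continuous_ofReal).neg)
    have hmeas : AEStronglyMeasurable (fun y : ℝ => (∑' k, a k * Complex.exp (z k * y)) *
        Complex.exp (-(s * y))) (volume.restrict (Ioi 0)) := by
      refine hcont.aestronglyMeasurable.congr ?_
      refine (ae_restrict_mem measurableSet_Ioi).mono fun y hy => ?_
      have hy' : (0 : ℝ) < y := hy
      simp only [max_eq_left hy'.le]
    have hint : IntegrableOn (fun y : ℝ => (∑' k, ‖a k‖) * Real.exp ((b - s.re) * y)) (Ioi 0) :=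
      (integrableOn_exp_mul_Ioi (by linarith) 0).const_mul _
    refine Integrable.mono' hint hmeas ?_
    refine (ae_restrict_mem measurableSet_Ioi).mono fun y hy => ?_
    have hy' : (0 : ℝ) < y := hy
    rw [norm_mul, hns]
    have h1 : ‖∑' k, a k * Complex.exp (z k * y)‖ ≤ (∑' k, ‖a k‖) * Real.exp (b * y) := by
      have hsum : Summable fun k => ‖a k‖ * Real.exp (b * y) := hs.mul_right _
      have hsum2 : Summable fun k => ‖a k * Complex.exp (z k * y)‖ :=
        Summable.of_nonneg_of_le (fun k => norm_nonneg _) (fun k => bd hy'.le (hb k)) hsum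
      refine (norm_tsum_le_tsum_norm hsum2).trans ?_
      rw [← tsum_mul_right]
      exact hsum2.tsum_le_tsum (fun k => bd hy'.le (hb k)) hsum
    calc ‖∑' k, a k * Complex.exp (z k * y)‖ * Real.exp (-(s.re * y)) ≤
          (∑' k, ‖a k‖) * Real.exp (b * y) * Real.exp (-(s.re * y)) :=
          mul_le_mul_of_nonneg_right h1 (Real.exp_pos _).le
      _ = (∑' k, ‖a k‖) * Real.exp ((b - s.re) * y) := by
          rw [mul_assoc, ← Real.exp_add]
          congr 2
          ring
  · have hint : ∀ k, IntegrableOn (fun y : ℝ => a k * Complex.exp ((z k - s) * y)) (Ioi 0) :=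
      fun k => (integrableOn_exp_mul_complex_Ioi (hre k) 0).const_mul _
    have hnorm : ∀ k, ∫ y in Ioi (0 : ℝ), ‖a k * Complex.exp ((z k - s) * y)‖ =
        ‖a k‖ / (s.re - (z k).re) := by
      intro k
      have e2 : ∀ y : ℝ, ‖a k * Complex.exp ((z k - s) * y)‖ =
          ‖a k‖ * Real.exp ((z k - s).re * y) := by
        intro y
        rw [norm_mul, Complex.norm_exp, Complex.mul_re, Complex.ofReal_re, Complex.ofReal_im,
          mul_zero, sub_zero]
      simp only [e2]
      rw [integral_const_mul, integral_exp_mul_Ioi (hre k), mul_zero, Real.exp_zero,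
        Complex.sub_re, ← neg_sub s.re, neg_div_neg_eq, mul_one_div]
    have hsumm : Summable fun k => ∫ y in Ioi (0 : ℝ), ‖a k * Complex.exp ((z k - s) * y)‖ := by
      simp only [hnorm]
      refine Summable.of_nonneg_of_le (fun k => ?_) (fun k => ?_) (hs.div_const (s.re - b))
      · have := hb k
        exact div_nonneg (norm_nonneg _) (by linarith)
      · have := hb k
        exact div_le_div_of_nonneg_left (norm_nonneg _) (by linarith) (by linarith)
    have hH := hasSum_integral_of_summable_integral_norm hint hsumm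
    have e3 : ∀ y : ℝ, (∑' k, a k * Complex.exp (z k * y)) * Complex.exp (-(s * y)) =
        ∑' k, a k * Complex.exp ((z k - s) * y) := by
      intro y
      rw [← tsum_mul_right]
      exact tsum_congr fun k => e1 k y
    simp only [e3]
    rw [← hH.tsum_eq]
    refine tsum_congr fun k => ?_
    rw [integral_const_mul, integral_exp_mul_complex_Ioi (hre k), Complex.ofReal_zero, mul_zero,
      Complex.exp_zero, ← neg_sub s (z k), neg_div_neg_eq, mul_one_div]

theorem main : S_PFR := by
  intro Z z a hs hf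
  exact ⟨fun s hz => part1 hs hf s hz, fun s0 => part2 hs hf s0,
    fun b hb => ⟨part3 hs hb, fun s hbs => part4 hs hf hb s hbs⟩⟩

end Pool.Agent.N286.LIPFR
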