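import Pool.Agent.N699.PC.Stm

set_option autoImplicit false

/-!
Project Q3 (helper699), leaves HSU, HOD, HM4: support, parity and residue modulo 4 of `h`.
-/

namespace Pool.Agent.N286.Q3

open Finset
open Pool.Agent.N699.PC (h w P1)

theorem E1_iff (k s n : ℕ) : 1 + k ^ 2 + 6 * s ^ 2 + 4 * s + (6 * s + 2) * k = n ↔
    3 * n + (3 * s + 1) ^ 2 = 3 * (k + (3 * s + 1)) ^ 2 + 1 := by
  constructor <;> intro h <;> nlinarith

theorem E2_iff (k s n : ℕ) : 3 + k ^ 2 + 6 * s ^ 2 + 8 * s + (6 * s + 4) * k = n ↔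
    3 * n + (3 * s + 2) ^ 2 = 3 * (k + (3 * s + 2)) ^ 2 + 1 := by
  constructor <;> intro h <;> nlinarith

/-- HSU -/
theorem t_HSU : Pool.Agent.N699.PC.HSU := by
  intro n hn
  by_contra hcon
  push Not at hcon
  apply hn
  unfold h
  refine sum_eq_zero fun k _ => sum_eq_zero fun s _ => ?_
  rw [if_neg (fun h1 => hcon _ _ ((E1_iff k s n).1 h1)),
    if_neg (fun h2 => hcon _ _ ((E2_iff k s n).1 h2))]
  ring

/-- the indicators -/
def i1 (n k s : ℕ) : ℤ := if 1 + k ^ 2 + 6 * s ^ 2 + 4 * s + (6 * s + 2) * k = n then 1 else 0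
def i2 (n k s : ℕ) : ℤ := if 3 + k ^ 2 + 6 * s ^ 2 + 8 * s + (6 * s + 4) * k = n then 1 else 0

theorem h_eq (n : ℕ) : h n = ∑ k ∈ range (n + 1), ∑ s ∈ range (n + 1),
    w k * (-1) ^ (k + s) * (i1 n k s + i2 n k s) := rfl

theorem sgn (m : ℕ) : (2 : ℤ) ∣ (-1) ^ m - 1 := by
  rcases neg_one_pow_eq_or ℤ m with h | h <;> rw [h] <;> decide

theorem k0_1 (n s : ℕ) : i1 n 0 s = if 3 * n = 2 * (3 * s + 1) ^ 2 + 1 then 1 else 0 := by
  unfold i1
  congr 1
  rw [E1_iff, eq_iff_iff, zero_add]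
  constructor <;> intro h <;> omega

theorem k0_2 (n s : ℕ) : i2 n 0 s = if 3 * n = 2 * (3 * s + 2) ^ 2 + 1 then 1 else 0 := by
  unfold i2
  congr 1
  rw [E2_iff, eq_iff_iff, zero_add]
  constructor <;> intro h <;> omega

theorem par (n : ℕ) : (2 : ℤ) ∣ h n - ∑ s ∈ range (n + 1), (i1 n 0 s + i2 n 0 s) := by
  rw [h_eq, sum_range_succ']
  have e : (∑ k ∈ range n, ∑ s ∈ range (n + 1),
        w (k + 1) * (-1) ^ (k + 1 + s) * (i1 n (k + 1) s + i2 n (k + 1) s)) +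
      (∑ s ∈ range (n + 1), w 0 * (-1) ^ (0 + s) * (i1 n 0 s + i2 n 0 s)) -
      ∑ s ∈ range (n + 1), (i1 n 0 s + i2 n 0 s) =
      (∑ k ∈ range n, ∑ s ∈ range (n + 1),
        w (k + 1) * (-1) ^ (k + 1 + s) * (i1 n (k + 1) s + i2 n (k + 1) s)) +
      ∑ s ∈ range (n + 1), ((-1) ^ s - 1) * (i1 n 0 s + i2 n 0 s) := by
    rw [add_sub_assoc, ← sum_sub_distrib]
    congr 1
    refine sum_congr rfl fun s _ => ?_
    have : w 0 = 1 := rfl
    rw [this, zero_add]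
    ring
  rw [e]
  refine dvd_add (dvd_sum fun k _ => dvd_sum fun s _ => ?_) (dvd_sum fun s _ => ?_)
  · have : w (k + 1) = 2 := rfl
    rw [this, mul_assoc]
    exact dvd_mul_right _ _
  · exact (sgn s).mul_right _

theorem sq_inj {a b : ℕ} (h : 2 * a ^ 2 + 1 = 2 * b ^ 2 + 1) : a = b := by
  have h1 : a ^ 2 = b ^ 2 := by omega
  exact (Nat.pow_left_inj (by norm_num)).1 h1

theorem cnt (n : ℕ) (x : ℕ) (hx : 3 * n = 2 * x ^ 2 + 1) :
    ∑ s ∈ range (n + 1), (i1 n 0 s + i2 n 0 s) = 1 := by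
  have hx3 : x % 3 = 1 ∨ x % 3 = 2 := by
    by_contra hcon
    have h0 : x % 3 = 0 := by omega
    obtain ⟨t, rfl⟩ : 3 ∣ x := Nat.dvd_of_mod_eq_zero h0
    have h1 : 2 * (3 * t) ^ 2 + 1 = 3 * (6 * t ^ 2) + 1 := by ring
    omega
  have hxn : x / 3 ∈ range (n + 1) := by
    rw [mem_range]
    have h1 : x ≤ x ^ 2 := Nat.le_self_pow (by norm_num) x
    omega
  rcases hx3 with h3 | h3
  · have e : ∀ s ∈ range (n + 1), i1 n 0 s + i2 n 0 s = if s = x / 3 then 1 else 0 := by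
      intro s _
      rw [k0_1, k0_2]
      have h2 : ¬ (3 * n = 2 * (3 * s + 2) ^ 2 + 1) := by
        intro h
        rw [hx] at h
        have := sq_inj h
        omega
      rw [if_neg h2, add_zero]
      by_cases hs : s = x / 3
      · have h4 : 3 * s + 1 = x := by omega
        rw [if_pos hs, h4, if_pos hx]
      · rw [if_neg hs, if_neg]
        intro h
        rw [hx] at h
        have := sq_inj h
        omega
    rw [sum_congr rfl e, sum_ite_eq', if_pos hxn]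
  · have e : ∀ s ∈ range (n + 1), i1 n 0 s + i2 n 0 s = if s = x / 3 then 1 else 0 := by
      intro s _
      rw [k0_1, k0_2]
      have h2 : ¬ (3 * n = 2 * (3 * s + 1) ^ 2 + 1) := by
        intro h
        rw [hx] at h
        have := sq_inj h
        omega
      rw [if_neg h2, zero_add]
      by_cases hs : s = x / 3
      · have h4 : 3 * s + 2 = x := by omega
        rw [if_pos hs, h4, if_pos hx]
      · rw [if_neg hs, if_neg]
        intro h
        rw [hx] at h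
        have := sq_inj h
        omega
    rw [sum_congr rfl e, sum_ite_eq', if_pos hxn]

theorem cnt0 (n : ℕ) (hx : ¬ ∃ x : ℕ, 3 * n = 2 * x ^ 2 + 1) (s : ℕ) :
    i1 n 0 s = 0 ∧ i2 n 0 s = 0 := by
  rw [k0_1, k0_2]
  exact ⟨if_neg fun h => hx ⟨_, h⟩, if_neg fun h => hx ⟨_, h⟩⟩

/-- HOD -/
theorem t_HOD : Pool.Agent.N699.PC.HOD := by
  intro n
  have hp := par n
  by_cases hx : ∃ x : ℕ, 3 * n = 2 * x ^ 2 + 1
  · refine ⟨fun _ => hx, fun _ => ?_⟩
    obtain ⟨x, hx⟩ := hx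
    rw [cnt n x hx] at hp
    rw [Int.odd_iff]
    omega
  · refine ⟨fun h1 => ?_, fun h1 => absurd h1 hx⟩
    exfalso
    have e : ∑ s ∈ range (n + 1), (i1 n 0 s + i2 n 0 s) = 0 := by
      refine sum_eq_zero fun s _ => ?_
      obtain ⟨h2, h3⟩ := cnt0 n hx s
      rw [h2, h3]
      rfl
    rw [e] at hp
    rw [Int.odd_iff] at h1
    omega

/-- the pairs of the representation number -/
def SS (n : ℕ) : Finset (ℕ × ℕ) := (range (3 * n - 1 + 1) ×ˢ range (3 * n - 1 + 1)).filter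
  (fun p => 1 ≤ p.1 ∧ p.1 < p.2 ∧ 3 * p.2 ^ 2 = p.1 ^ 2 + (3 * n - 1))

def T1 (n : ℕ) : Finset (ℕ × ℕ) := (range (n + 1) ×ˢ range (n + 1)).filter
  (fun p => 1 ≤ p.1 ∧ 1 + p.1 ^ 2 + 6 * p.2 ^ 2 + 4 * p.2 + (6 * p.2 + 2) * p.1 = n)

def T2 (n : ℕ) : Finset (ℕ × ℕ) := (range (n + 1) ×ˢ range (n + 1)).filter
  (fun p => 1 ≤ p.1 ∧ 3 + p.1 ^ 2 + 6 * p.2 ^ 2 + 8 * p.2 + (6 * p.2 + 4) * p.1 = n)

theorem card1 (n : ℕ) (hn : 1 ≤ n) : (T1 n).card = ((SS n).filter fun p => p.1 % 3 = 1).card := by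
  refine Finset.card_nbij' (fun p => (3 * p.2 + 1, p.1 + (3 * p.2 + 1)))
    (fun p => (p.2 - p.1, p.1 / 3)) ?_ ?_ ?_ ?_
  · rintro ⟨k, s⟩ hks
    simp only [T1, coe_filter, mem_product, mem_range, Set.mem_ofPred_eq] at hks
    obtain ⟨⟨h1, h2⟩, h3, h4⟩ := hks
    have h5 := (E1_iff k s n).1 h4
    have h6 : k + 3 * s + 2 ≤ n := by nlinarith
    simp only [SS, coe_filter, mem_filter, mem_product, mem_range, Set.mem_ofPred_eq]
    refine ⟨⟨⟨by omega, by omega⟩, by omega, by omega, by omega⟩, by omega⟩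
  · rintro ⟨x, y⟩ hxy
    simp only [SS, coe_filter, mem_filter, mem_product, mem_range, Set.mem_ofPred_eq] at hxy
    obtain ⟨⟨⟨h1, h2⟩, h3, h4, h5⟩, h6⟩ := hxy
    obtain ⟨s, rfl⟩ : ∃ s, x = 3 * s + 1 := ⟨x / 3, by omega⟩
    obtain ⟨k, rfl⟩ : ∃ k, y = k + (3 * s + 1) := ⟨y - (3 * s + 1), by omega⟩
    have e1 : k + (3 * s + 1) - (3 * s + 1) = k := by omega
    have e2 : (3 * s + 1) / 3 = s := by omega
    have h7 : 1 + k ^ 2 + 6 * s ^ 2 + 4 * s + (6 * s + 2) * k = n := by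
      rw [E1_iff]
      omega
    have h8 : 1 ≤ k := by omega
    have h9 : k + s ≤ n := by nlinarith
    simp only [T1, coe_filter, mem_product, mem_range, Set.mem_ofPred_eq, e1, e2]
    exact ⟨⟨by omega, by omega⟩, h8, h7⟩
  · rintro ⟨k, s⟩ _
    have e1 : k + (3 * s + 1) - (3 * s + 1) = k := by omega
    have e2 : (3 * s + 1) / 3 = s := by omega
    simp only [e1, e2]
  · rintro ⟨x, y⟩ hxy
    simp only [SS, coe_filter, mem_filter, mem_product, mem_range, Set.mem_ofPred_eq] at hxy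
    obtain ⟨⟨⟨h1, h2⟩, h3, h4, h5⟩, h6⟩ := hxy
    have e1 : 3 * (x / 3) + 1 = x := by omega
    have e2 : y - x + x = y := by omega
    simp only [e1, e2]

theorem card2 (n : ℕ) (hn : 1 ≤ n) : (T2 n).card = ((SS n).filter fun p => p.1 % 3 = 2).card := by
  refine Finset.card_nbij' (fun p => (3 * p.2 + 2, p.1 + (3 * p.2 + 2)))
    (fun p => (p.2 - p.1, p.1 / 3)) ?_ ?_ ?_ ?_
  · rintro ⟨k, s⟩ hks
    simp only [T2, coe_filter, mem_product, mem_range, Set.mem_ofPred_eq] at hks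
    obtain ⟨⟨h1, h2⟩, h3, h4⟩ := hks
    have h5 := (E2_iff k s n).1 h4
    have h6 : k + 3 * s + 2 ≤ n := by nlinarith
    simp only [SS, coe_filter, mem_filter, mem_product, mem_range, Set.mem_ofPred_eq]
    refine ⟨⟨⟨by omega, by omega⟩, by omega, by omega, by omega⟩, by omega⟩
  · rintro ⟨x, y⟩ hxy
    simp only [SS, coe_filter, mem_filter, mem_product, mem_range, Set.mem_ofPred_eq] at hxy
    obtain ⟨⟨⟨h1, h2⟩, h3, h4, h5⟩, h6⟩ := hxy
    obtain ⟨s, rfl⟩ : ∃ s, x = 3 * s + 2 := ⟨x / 3, by omega⟩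
    obtain ⟨k, rfl⟩ : ∃ k, y = k + (3 * s + 2) := ⟨y - (3 * s + 2), by omega⟩
    have e1 : k + (3 * s + 2) - (3 * s + 2) = k := by omega
    have e2 : (3 * s + 2) / 3 = s := by omega
    have h7 : 3 + k ^ 2 + 6 * s ^ 2 + 8 * s + (6 * s + 4) * k = n := by
      rw [E2_iff]
      omega
    have h8 : 1 ≤ k := by omega
    have h9 : k + s ≤ n := by nlinarith
    simp only [T2, coe_filter, mem_product, mem_range, Set.mem_ofPred_eq, e1, e2]
    exact ⟨⟨by omega, by omega⟩, h8, h7⟩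
  · rintro ⟨k, s⟩ _
    have e1 : k + (3 * s + 2) - (3 * s + 2) = k := by omega
    have e2 : (3 * s + 2) / 3 = s := by omega
    simp only [e1, e2]
  · rintro ⟨x, y⟩ hxy
    simp only [SS, coe_filter, mem_filter, mem_product, mem_range, Set.mem_ofPred_eq] at hxy
    obtain ⟨⟨⟨h1, h2⟩, h3, h4, h5⟩, h6⟩ := hxy
    have e1 : 3 * (x / 3) + 2 = x := by omega
    have e2 : y - x + x = y := by omega
    simp only [e1, e2]

theorem cardS (n : ℕ) (hn : 1 ≤ n) : P1 (3 * n - 1) = (T1 n).card + (T2 n).card := by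
  rw [card1 n hn, card2 n hn]
  have e : P1 (3 * n - 1) = (SS n).card := rfl
  rw [e, ← card_filter_add_card_filter_not (s := SS n) (p := fun p => p.1 % 3 = 1)]
  congr 1
  congr 1
  refine filter_congr fun p hp => ?_
  simp only [SS, mem_filter, mem_product, mem_range] at hp
  obtain ⟨_, _, _, h5⟩ := hp
  have h6 : p.1 % 3 ≠ 0 := by
    intro h0
    obtain ⟨t, ht⟩ : 3 ∣ p.1 := Nat.dvd_of_mod_eq_zero h0
    rw [ht] at h5
    have h1 : (3 * t) ^ 2 = 3 * (3 * t ^ 2) := by ring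
    omega
  constructor <;> intro h <;> omega

/-- HM4 -/
theorem t_HM4 : Pool.Agent.N699.PC.HM4 := by
  intro n hn hx
  rw [cardS n hn, h_eq]
  have e1 : ((T1 n).card : ℤ) = ∑ k ∈ range (n + 1), ∑ s ∈ range (n + 1),
      (if 1 ≤ k then i1 n k s else 0) := by
    unfold T1
    rw [card_filter, sum_product]
    push_cast
    refine sum_congr rfl fun k _ => sum_congr rfl fun s _ => ?_
    by_cases hk : 1 ≤ k <;> simp [hk, i1]
  have e2 : ((T2 n).card : ℤ) = ∑ k ∈ range (n + 1), ∑ s ∈ range (n + 1),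
      (if 1 ≤ k then i2 n k s else 0) := by
    unfold T2
    rw [card_filter, sum_product]
    push_cast
    refine sum_congr rfl fun k _ => sum_congr rfl fun s _ => ?_
    by_cases hk : 1 ≤ k <;> simp [hk, i2]
  push_cast
  rw [e1, e2, ← sum_add_distrib, mul_sum, ← sum_sub_distrib]
  refine dvd_sum fun k _ => ?_
  rw [← sum_add_distrib, mul_sum, ← sum_sub_distrib]
  refine dvd_sum fun s _ => ?_
  by_cases hk : 1 ≤ k
  · rw [if_pos hk, if_pos hk]
    have hw : w k = 2 := by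
      unfold w
      rw [if_neg (by omega)]
    rw [hw]
    obtain ⟨t, ht⟩ := sgn (k + s)
    have e : 2 * (-1) ^ (k + s) * (i1 n k s + i2 n k s) - 2 * (i1 n k s + i2 n k s) =
        4 * (t * (i1 n k s + i2 n k s)) := by
      have h3 : ((-1 : ℤ)) ^ (k + s) = 1 + 2 * t := by linarith
      rw [h3]
      ring
    rw [e]
    exact dvd_mul_right _ _
  · rw [if_neg hk, if_neg hk]
    obtain rfl : k = 0 := by omega
    obtain ⟨h2, h3⟩ := cnt0 n hx s
    rw [h2, h3]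
    simp

end Pool.Agent.N286.Q3
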