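import Pool.Agent.N657.QR.Stm

/-!
# Project QR (helper657), part E2L: lower bound for the energy of two replicas by slicing
-/

namespace Pool.Agent.N286.QR

open Pool.Agent.N657.QR

variable {V : Type} [Fintype V] [DecidableEq V]

/-- sum and difference -/
def jj (z : (V → ℤ) × (V → ℤ)) : (V → ℤ) × (V → ℤ) := (z.1 + z.2, z.1 - z.2)

theorem jj_inj : Function.Injective (jj (V := V)) := by
  intro z z' h
  unfold jj at h
  rw [Prod.mk.injEq] at h
  obtain ⟨h1, h2⟩ := h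
  apply Prod.ext
  · funext x
    have e1 := congrFun h1 x
    have e2 := congrFun h2 x
    simp only [Pi.add_apply, Pi.sub_apply] at e1 e2
    omega
  · funext x
    have e1 := congrFun h1 x
    have e2 := congrFun h2 x
    simp only [Pi.add_apply, Pi.sub_apply] at e1 e2
    omega

theorem mem_range {A B : ℤ} {M : (V → ℤ) → (V → ℤ) → ℝ} (hM : Par A B M)
    {z : (V → ℤ) × (V → ℤ)} (h : M z.1 z.2 ≠ 0) : z ∈ Set.range (jj (V := V)) := by
  obtain ⟨h1, -, -⟩ := hM _ _ h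
  refine ⟨(fun x => z.1 x - (z.1 x - z.2 x) / 2, fun x => (z.1 x - z.2 x) / 2), ?_⟩
  unfold jj
  apply Prod.ext
  · funext x
    simp
  · funext x
    have := h1 x
    simp only [Pi.sub_apply]
    omega

theorem tsum_jj {A B : ℤ} {M : (V → ℤ) → (V → ℤ) → ℝ} (hM : Par A B M)
    (F : (V → ℤ) × (V → ℤ) → ℝ) (hF : ∀ z, M z.1 z.2 = 0 → F z = 0) :
    ∑' z, F z = ∑' z, F (jj z) := by
  refine (jj_inj.tsum_eq ?_).symm
  intro z hz
  refine mem_range hM ?_
  intro h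
  exact hz (hF z h)

/-- slices -/
theorem slice₂ (S T : Finset (V → ℤ)) (F : (V → ℤ) × (V → ℤ) → ℝ)
    (hF : ∀ z, F z ≠ 0 → z.1 ∈ S ∧ z.2 ∈ T) :
    ∑' z, F z = ∑ m ∈ T, ∑' n, F (n, m) := by
  rw [tsum_eq_sum (s := S ×ˢ T), Finset.sum_product_right]
  · refine Finset.sum_congr rfl fun m _ => ?_
    rw [tsum_eq_sum (s := S)]
    intro n hn
    by_contra h
    exact hn (hF (n, m) h).1
  · intro z hz
    by_contra h
    exact hz (Finset.mem_product.2 (hF z h))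

theorem slice₁ (S T : Finset (V → ℤ)) (F : (V → ℤ) × (V → ℤ) → ℝ)
    (hF : ∀ z, F z ≠ 0 → z.1 ∈ S ∧ z.2 ∈ T) :
    ∑' z, F z = ∑ n ∈ S, ∑' m, F (n, m) := by
  rw [tsum_eq_sum (s := S ×ˢ T), Finset.sum_product]
  · refine Finset.sum_congr rfl fun n _ => ?_
    rw [tsum_eq_sum (s := T)]
    intro m hm
    by_contra h
    exact hm (hF (n, m) h).2
  · intro z hz
    by_contra h
    exact hz (Finset.mem_product.2 (hF z h))

theorem quad (K₁ K₂ : Matrix V V ℝ) (h₁ : ∀ x y, K₁ x y = K₁ y x) (h₂ : ∀ x y, K₂ x y = K₂ y x)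
    (a b : V → ℝ) (n m : V → ℤ) :
    (∑ x, ∑ y, ((K₁ x y + K₂ x y) / 4 *
        ((((n + m) x : ℤ) - a x) * (((n + m) y : ℤ) - a y) +
          (((n - m) x : ℤ) - b x) * (((n - m) y : ℤ) - b y))
      + (K₁ x y - K₂ x y) / 2 * ((((n + m) x : ℤ) - a x) * (((n - m) y : ℤ) - b y)))) =
      pot K₁ (fun x => (a x + b x) / 2) n + pot K₂ (fun x => (a x - b x) / 2) m := by
  unfold pot
  obtain ⟨u, hu⟩ : ∃ u : V → ℝ, ∀ x, u x = (n x : ℝ) - (a x + b x) / 2 := ⟨_, fun _ => rfl⟩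
  obtain ⟨v, hv⟩ : ∃ v : V → ℝ, ∀ x, v x = (m x : ℝ) - (a x - b x) / 2 := ⟨_, fun _ => rfl⟩
  have e1 : ∀ x, (((n + m) x : ℤ) : ℝ) - a x = u x + v x := by
    intro x
    rw [hu, hv, Pi.add_apply]
    push_cast
    ring
  have e2 : ∀ x, (((n - m) x : ℤ) : ℝ) - b x = u x - v x := by
    intro x
    rw [hu, hv, Pi.sub_apply]
    push_cast
    ring
  simp only [e1, e2, ← hu, ← hv]
  have e3 : ∑ x, ∑ y, (K₁ x y - K₂ x y) / 2 * (v x * u y) =
      ∑ x, ∑ y, (K₁ x y - K₂ x y) / 2 * (u x * v y) := by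
    rw [Finset.sum_comm]
    refine Finset.sum_congr rfl fun x _ => Finset.sum_congr rfl fun y _ => ?_
    rw [h₁ y x, h₂ y x]
    ring
  have e4 : ∀ x y, (K₁ x y + K₂ x y) / 4 * ((u x + v x) * (u y + v y) + (u x - v x) * (u y - v y))
      + (K₁ x y - K₂ x y) / 2 * ((u x + v x) * (u y - v y)) =
      (K₁ x y * (u x * u y) + K₂ x y * (v x * v y)) +
        ((K₁ x y - K₂ x y) / 2 * (v x * u y) - (K₁ x y - K₂ x y) / 2 * (u x * v y)) := by
    intro x y
    ring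
  simp only [e4, Finset.sum_add_distrib, Finset.sum_sub_distrib]
  rw [e3]
  ring

theorem hp_add (x y : V) (n m : V → ℤ) : hp x y (n + m) = hp x y n + m := by
  unfold hp
  abel

theorem hp_sub (x y : V) (n m : V → ℤ) : hp x y (n - m) = hp x y n - m := by
  unfold hp
  abel

theorem hp_add' (x y : V) (n m : V → ℤ) : hp x y (n + m) = n + hp x y m := by
  unfold hp
  abel

theorem hp_sub' (x y : V) (n m : V → ℤ) : hp y x (n - m) = n - hp x y m := by
  unfold hp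
  abel

theorem tot_add (n m : V → ℤ) : tot (n + m) = tot n + tot m := by
  unfold tot
  simp only [Pi.add_apply, Finset.sum_add_distrib]

theorem tot_sub (n m : V → ℤ) : tot (n - m) = tot n - tot m := by
  unfold tot
  simp only [Pi.sub_apply, Finset.sum_sub_distrib]

theorem symm_of {K : Matrix V V ℝ} (h : K.PosSemidef) (x y : V) : K x y = K y x := by
  have := h.isHermitian.apply y x
  simpa using this

/-- The energy of two replicas is the sum of the energies of the slices. -/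
theorem E2_eq (K₁ K₂ : Matrix V V ℝ) (h₁ : ∀ x y, K₁ x y = K₁ y x) (h₂ : ∀ x y, K₂ x y = K₂ y x)
    (w₁ w₂ : V → V → ℝ) (a b : V → ℝ) (A B : ℤ) (M : (V → ℤ) → (V → ℤ) → ℝ) (hM : Par A B M)
    (S T : Finset (V → ℤ)) (hS : ∀ n m, M (n + m) (n - m) ≠ 0 → n ∈ S ∧ m ∈ T) :
    E2 K₁ K₂ w₁ w₂ a b M =
      ∑ m ∈ T, FF K₁ w₁ (fun x => (a x + b x) / 2) (fun n => M (n + m) (n - m)) +
      ∑ n ∈ S, FF K₂ w₂ (fun x => (a x - b x) / 2) (fun m => M (n + m) (n - m)) := by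
  unfold E2
  rw [tsum_jj hM _ (fun z hz => by simp [hz])]
  have t1 : ∀ x y, ∑' z : (V → ℤ) × (V → ℤ), M (hp x y z.1) (hp x y z.2) * M z.1 z.2 =
      ∑ m ∈ T, cr x y (fun n => M (n + m) (n - m)) := by
    intro x y
    rw [tsum_jj hM _ (fun z hz => by simp [hz])]
    rw [slice₂ S T]
    · refine Finset.sum_congr rfl fun m _ => ?_
      unfold cr
      refine tsum_congr fun n => ?_
      simp only [jj]
      rw [hp_add, hp_sub]
    · intro z hz
      exact hS z.1 z.2 (right_ne_zero_of_mul hz)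
  have t2 : ∀ x y, ∑' z : (V → ℤ) × (V → ℤ), M (hp x y z.1) (hp y x z.2) * M z.1 z.2 =
      ∑ n ∈ S, cr x y (fun m => M (n + m) (n - m)) := by
    intro x y
    rw [tsum_jj hM _ (fun z hz => by simp [hz])]
    rw [slice₁ S T]
    · refine Finset.sum_congr rfl fun n _ => ?_
      unfold cr
      refine tsum_congr fun m => ?_
      simp only [jj]
      rw [hp_add', hp_sub']
    · intro z hz
      exact hS z.1 z.2 (right_ne_zero_of_mul hz)
  simp only [t1, t2]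
  have t3 : ∑' z : (V → ℤ) × (V → ℤ), (∑ x, ∑ y, ((K₁ x y + K₂ x y) / 4 *
        ((((jj z).1 x : ℝ) - a x) * (((jj z).1 y : ℝ) - a y) +
          (((jj z).2 x : ℝ) - b x) * (((jj z).2 y : ℝ) - b y))
      + (K₁ x y - K₂ x y) / 2 * ((((jj z).1 x : ℝ) - a x) * (((jj z).2 y : ℝ) - b y)))) *
        M (jj z).1 (jj z).2 ^ 2 =
      ∑ m ∈ T, po K₁ (fun x => (a x + b x) / 2) (fun n => M (n + m) (n - m)) +
      ∑ n ∈ S, po K₂ (fun x => (a x - b x) / 2) (fun m => M (n + m) (n - m)) := by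
    have q1 : ∀ z : (V → ℤ) × (V → ℤ), (∑ x, ∑ y, ((K₁ x y + K₂ x y) / 4 *
        ((((jj z).1 x : ℝ) - a x) * (((jj z).1 y : ℝ) - a y) +
          (((jj z).2 x : ℝ) - b x) * (((jj z).2 y : ℝ) - b y))
      + (K₁ x y - K₂ x y) / 2 * ((((jj z).1 x : ℝ) - a x) * (((jj z).2 y : ℝ) - b y)))) *
        M (jj z).1 (jj z).2 ^ 2 =
        pot K₁ (fun x => (a x + b x) / 2) z.1 * M (z.1 + z.2) (z.1 - z.2) ^ 2 +
        pot K₂ (fun x => (a x - b x) / 2) z.2 * M (z.1 + z.2) (z.1 - z.2) ^ 2 := by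
      intro z
      have := quad K₁ K₂ h₁ h₂ a b z.1 z.2
      simp only [jj]
      rw [this]
      ring
    rw [tsum_congr q1]
    have s1 : ∀ z : (V → ℤ) × (V → ℤ),
        pot K₁ (fun x => (a x + b x) / 2) z.1 * M (z.1 + z.2) (z.1 - z.2) ^ 2 ≠ 0 →
        z.1 ∈ S ∧ z.2 ∈ T := fun z hz => hS z.1 z.2 (by
          intro h
          apply hz
          rw [h]
          ring)
    have s2 : ∀ z : (V → ℤ) × (V → ℤ),
        pot K₂ (fun x => (a x - b x) / 2) z.2 * M (z.1 + z.2) (z.1 - z.2) ^ 2 ≠ 0 →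
        z.1 ∈ S ∧ z.2 ∈ T := fun z hz => hS z.1 z.2 (by
          intro h
          apply hz
          rw [h]
          ring)
    have u1 : Summable fun z : (V → ℤ) × (V → ℤ) =>
        pot K₁ (fun x => (a x + b x) / 2) z.1 * M (z.1 + z.2) (z.1 - z.2) ^ 2 := by
      refine summable_of_ne_finset_zero (s := S ×ˢ T) ?_
      intro z hz
      by_contra h
      exact hz (Finset.mem_product.2 (s1 z h))
    have u2 : Summable fun z : (V → ℤ) × (V → ℤ) =>
        pot K₂ (fun x => (a x - b x) / 2) z.2 * M (z.1 + z.2) (z.1 - z.2) ^ 2 := by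
      refine summable_of_ne_finset_zero (s := S ×ˢ T) ?_
      intro z hz
      by_contra h
      exact hz (Finset.mem_product.2 (s2 z h))
    rw [u1.tsum_add u2, slice₂ S T _ s1, slice₁ S T _ s2]
    rfl
  rw [t3]
  unfold FF
  simp only [Finset.sum_sub_distrib, Finset.sum_add_distrib]
  have r1 : ∑ m ∈ T, ∑ x, ∑ y, w₁ x y * cr x y (fun n => M (n + m) (n - m)) =
      ∑ x, ∑ y, w₁ x y * ∑ m ∈ T, cr x y (fun n => M (n + m) (n - m)) := by
    rw [Finset.sum_comm]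
    refine Finset.sum_congr rfl fun x _ => ?_
    rw [Finset.sum_comm]
    refine Finset.sum_congr rfl fun y _ => ?_
    rw [Finset.mul_sum]
  have r2 : ∑ n ∈ S, ∑ x, ∑ y, w₂ x y * cr x y (fun m => M (n + m) (n - m)) =
      ∑ x, ∑ y, w₂ x y * ∑ n ∈ S, cr x y (fun m => M (n + m) (n - m)) := by
    rw [Finset.sum_comm]
    refine Finset.sum_congr rfl fun x _ => ?_
    rw [Finset.sum_comm]
    refine Finset.sum_congr rfl fun y _ => ?_
    rw [Finset.mul_sum]
  rw [r1, r2]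
  ring

/-- Lower bound for the energy of two replicas. -/
theorem main (hB : S_BAS) : S_E2L := by
  classical
  intro V _ _ _ K₁ K₂ w₁ w₂ a b N₁ N₂ M hK₁ hK₂ hw₁ hw₂ hfs hM
  -- the finite sets
  have hfin : (Function.support (fun z : (V → ℤ) × (V → ℤ) => M (z.1 + z.2) (z.1 - z.2))).Finite := by
    have h : Function.support (fun z : (V → ℤ) × (V → ℤ) => M (z.1 + z.2) (z.1 - z.2)) =
        jj ⁻¹' (Function.support (fun z : (V → ℤ) × (V → ℤ) => M z.1 z.2)) := rfl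
    rw [h]
    exact Set.Finite.preimage (jj_inj.injOn) hfs
  obtain ⟨S, hS⟩ : ∃ S : Finset (V → ℤ), S = hfin.toFinset.image Prod.fst := ⟨_, rfl⟩
  obtain ⟨T, hT⟩ : ∃ T : Finset (V → ℤ), T = hfin.toFinset.image Prod.snd := ⟨_, rfl⟩
  have hST : ∀ n m, M (n + m) (n - m) ≠ 0 → n ∈ S ∧ m ∈ T := by
    intro n m h
    have hm : (n, m) ∈ hfin.toFinset := by
      rw [Set.Finite.mem_toFinset]
      exact h
    rw [hS, hT]
    exact ⟨Finset.mem_image.2 ⟨_, hm, rfl⟩, Finset.mem_image.2 ⟨_, hm, rfl⟩⟩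
  rw [E2_eq K₁ K₂ (symm_of hK₁) (symm_of hK₂) w₁ w₂ a b _ _ M hM S T hST]
  have n0 : nr2 M = ∑' z : (V → ℤ) × (V → ℤ), M (z.1 + z.2) (z.1 - z.2) ^ 2 := by
    unfold nr2
    rw [tsum_jj hM _ (fun z hz => by simp [hz])]
    rfl
  have hsq : ∀ z : (V → ℤ) × (V → ℤ), M (z.1 + z.2) (z.1 - z.2) ^ 2 ≠ 0 → z.1 ∈ S ∧ z.2 ∈ T :=
    fun z hz => hST z.1 z.2 (by
      intro h
      apply hz
      rw [h]
      ring)
  have n1 : nr2 M = ∑ m ∈ T, nr (fun n => M (n + m) (n - m)) := by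
    rw [n0, slice₂ S T _ hsq]
    rfl
  have n2 : nr2 M = ∑ n ∈ S, nr (fun m => M (n + m) (n - m)) := by
    rw [n0, slice₁ S T _ hsq]
    rfl
  have htot : ∀ n m, M (n + m) (n - m) ≠ 0 → tot n = N₁ ∧ tot m = N₂ := by
    intro n m h
    obtain ⟨-, h1, h2⟩ := hM _ _ h
    rw [tot_add] at h1
    rw [tot_sub] at h2
    omega
  rw [add_mul]
  refine add_le_add ?_ ?_
  · rw [n1, Finset.mul_sum]
    refine Finset.sum_le_sum fun m _ => ?_
    refine hB.enle K₁ w₁ _ N₁ _ hK₁ hw₁ ?_ ?_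
    · refine Set.Finite.subset S.finite_toSet ?_
      intro n hn
      exact (hST n m hn).1
    · intro n hn
      exact (htot n m hn).1
  · rw [n2, Finset.mul_sum]
    refine Finset.sum_le_sum fun n _ => ?_
    refine hB.enle K₂ w₂ _ N₂ _ hK₂ hw₂ ?_ ?_
    · refine Set.Finite.subset T.finite_toSet ?_
      intro m hm
      exact (hST n m hm).2
    · intro m hm
      exact (htot n m hm).2

end Pool.Agent.N286.QR
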